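import Pool.Agent.H465Z.CutDefs

/-! Lindenbaum's theorem for chains and an abstract criterion for 2-homogeneity. -/

namespace Pool.Agent.H465Z.Cut

open Cardinal Set

universe u

variable {T : Type u} [LinearOrder T]

theorem lind_up (f : T → T) (hf : StrictMono f)
    (hc : ∀ x y w, f x ≤ w → w ≤ f y → ∃ t, f t = w) :
    ∃ k : T → T, StrictMono k ∧ ∀ g, (∃ t, k t = g) ↔ ∃ x, f x ≤ g := by
  classical
  let D : Set T := {g | ∀ x, g < f x}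
  let Φ : Set T →o Set T := ⟨fun S => D ∪ f '' S, fun S S' h =>
    union_subset_union_right _ (image_mono h)⟩
  set E := OrderHom.lfp Φ with hE
  have hfix : D ∪ f '' E = E := OrderHom.map_lfp Φ
  have hD : ∀ g ∈ D, g ∈ E := fun g hg => hfix ▸ Or.inl hg
  have hF : ∀ w ∈ E, f w ∈ E := fun w hw => hfix ▸ Or.inr ⟨w, hw, rfl⟩
  have hlow : ∀ y ∈ E, ∀ x ≤ y, x ∈ E := by
    have : E ≤ {y | ∀ x ≤ y, x ∈ E} := by
      apply OrderHom.lfp_le
      rintro y (hy | ⟨w, hw, rfl⟩) x hx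
      · exact hD x fun z => hx.trans_lt (hy z)
      · by_cases hxD : x ∈ D
        · exact hD x hxD
        · simp only [D, mem_ofPred_eq, not_forall, not_lt] at hxD
          obtain ⟨z, hz⟩ := hxD
          obtain ⟨t, rfl⟩ := hc z w x hz hx
          exact hF t (hw t (hf.le_iff_le.1 hx))
    exact fun y hy => this hy
  refine ⟨fun x => if x ∈ E then f x else x, fun x y hxy => ?_, fun g => ⟨?_, ?_⟩⟩
  · by_cases hx : x ∈ E <;> by_cases hy : y ∈ E <;> simp only [hx, hy, if_true, if_false]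
    · exact hf hxy
    · by_contra h
      exact hy (hlow _ (hF x hx) y (not_lt.1 h))
    · exact absurd (hlow y hy x hxy.le) hx
    · exact hxy
  · rintro ⟨t, rfl⟩
    by_cases ht : t ∈ E <;> simp only [ht, if_true, if_false]
    · exact ⟨t, le_rfl⟩
    · by_contra h
      push Not at h
      exact ht (hD t h)
  · rintro ⟨x, hx⟩
    by_cases hg : g ∈ E
    · rw [← hfix] at hg
      rcases hg with hg | ⟨w, hw, rfl⟩
      · exact absurd (hg x) (not_lt.2 hx)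
      · exact ⟨w, by simp [hw]⟩
    · exact ⟨g, by simp [hg]⟩

theorem lind_down (f : T → T) (hf : StrictMono f)
    (hc : ∀ x y w, f x ≤ w → w ≤ f y → ∃ t, f t = w) :
    ∃ k : T → T, StrictMono k ∧ ∀ g, (∃ t, k t = g) ↔ ∃ x, g ≤ f x := by
  obtain ⟨k, hk, h⟩ := lind_up (T := Tᵒᵈ) f hf.dual (fun x y w h1 h2 => hc y x w h2 h1)
  exact ⟨k, fun x y hxy => hk (a := y) (b := x) hxy, h⟩

theorem hull (f1 f2 : T → T) (h1 : StrictMono f1) (h2 : StrictMono f2)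
    (c1 : ∀ x y w, f1 x ≤ w → w ≤ f1 y → ∃ t, f1 t = w)
    (c2 : ∀ x y w, f2 x ≤ w → w ≤ f2 y → ∃ t, f2 t = w)
    (h12 : ∀ y, ∃ x, f1 x ≤ f2 y) :
    ∃ h : T → T, StrictMono h ∧
      ∀ g, (∃ t, h t = g) ↔ (∃ x, f1 x ≤ g) ∧ ∃ y, g ≤ f2 y := by
  obtain ⟨k, hk, hk'⟩ := lind_up f1 h1 c1
  choose f3 hf3 using fun y => (hk' (f2 y)).2 (h12 y)
  have h3 : StrictMono f3 := fun x y hxy => by
    rw [← hk.lt_iff_lt, hf3, hf3]
    exact h2 hxy
  obtain ⟨k', hk2, hk2'⟩ := lind_down f3 h3 (fun x y w a1 a2 => by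
    have b1 := hk.monotone a1
    have b2 := hk.monotone a2
    rw [hf3] at b1 b2
    obtain ⟨t, ht⟩ := c2 x y _ b1 b2
    exact ⟨t, hk.injective (by rw [hf3, ht])⟩)
  refine ⟨k ∘ k', hk.comp hk2, fun g => ⟨?_, ?_⟩⟩
  · rintro ⟨t, rfl⟩
    refine ⟨(hk' _).1 ⟨_, rfl⟩, ?_⟩
    obtain ⟨y, hy⟩ := (hk2' (k' t)).1 ⟨t, rfl⟩
    exact ⟨y, hf3 y ▸ hk.monotone hy⟩
  · rintro ⟨a1, y, hy⟩
    obtain ⟨w, rfl⟩ := (hk' g).2 a1
    rw [← hf3, hk.le_iff_le] at hy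
    obtain ⟨t, rfl⟩ := (hk2' w).2 ⟨y, hy⟩
    exact ⟨t, rfl⟩

theorem homog (o : T) (H : ∀ a b : T, a < b → ∃ p h q : T → T, StrictMono p ∧ StrictMono h ∧
    StrictMono q ∧ (∀ x y, p x < h y) ∧ (∀ y x, h y < q x) ∧ p o = a ∧ q o = b ∧
    ∀ g, a ≤ g → g ≤ b → (∃ x, p x = g) ∨ (∃ y, h y = g) ∨ (∃ x, q x = g)) :
    TwoHomogeneous T := by
  have key : ∀ a b : T, a < b → Nonempty ((Ici o ⊕ₗ (T ⊕ₗ Iic o)) ≃o Icc a b) := by
    intro a b hab
    obtain ⟨p, h, q, hp, hh, hq, hph, hhq, rfl, rfl, hcov⟩ := H a b hab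
    have hpq : ∀ x y, p x < q y := fun x y => (hph x o).trans (hhq o y)
    let F : (Ici o ⊕ₗ (T ⊕ₗ Iic o)) → Icc (p o) (q o) := fun w =>
      match ofLex w with
      | Sum.inl x => ⟨p x.1, hp.monotone x.2, (hpq _ _).le⟩
      | Sum.inr w' =>
        match ofLex w' with
        | Sum.inl y => ⟨h y, (hph _ _).le, (hhq _ _).le⟩
        | Sum.inr x => ⟨q x.1, (hpq _ _).le, hq.monotone x.2⟩
    have hF : StrictMono F := by
      rintro (x | y | x) (x' | y' | x') hlt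
      · have h0 : x < x' := Sum.Lex.inl_lt_inl_iff.1 hlt
        exact hp h0
      · exact hph _ _
      · exact hpq _ _
      · exact absurd hlt Sum.Lex.not_inr_lt_inl
      · exact hh (Sum.Lex.inl_lt_inl_iff.1 (Sum.Lex.inr_lt_inr_iff.1 hlt))
      · exact hhq _ _
      · exact absurd hlt Sum.Lex.not_inr_lt_inl
      · exact absurd (Sum.Lex.inr_lt_inr_iff.1 hlt) Sum.Lex.not_inr_lt_inl
      · have h0 : x < x' := Sum.Lex.inr_lt_inr_iff.1 (Sum.Lex.inr_lt_inr_iff.1 hlt)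
        exact hq h0
    refine ⟨hF.orderIsoOfSurjective F ?_⟩
    rintro ⟨g, hg1, hg2⟩
    rcases hcov g hg1 hg2 with ⟨x, rfl⟩ | ⟨y, rfl⟩ | ⟨x, rfl⟩
    · exact ⟨toLex (Sum.inl ⟨x, hp.le_iff_le.1 hg1⟩), rfl⟩
    · exact ⟨toLex (Sum.inr (toLex (Sum.inl y))), rfl⟩
    · exact ⟨toLex (Sum.inr (toLex (Sum.inr ⟨x, hq.le_iff_le.1 hg2⟩))), rfl⟩
  intro a b c d hab hcd
  obtain ⟨e1⟩ := key a b hab
  obtain ⟨e2⟩ := key c d hcd
  exact ⟨e1.symm.trans e2⟩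

theorem cof_of_map {K : Type u} [LinearOrder K] (S : Set K) (A : Set T) (f : K → T)
    (hf : StrictMono f) (h1 : ∀ l ∈ S, f l ∈ A) (h2 : ∀ a ∈ A, ∃ l ∈ S, a ≤ f l) :
    Order.cof A = Order.cof S := by
  refine (Order.cof_congr_of_strictMono (f := fun l : S => (⟨f l.1, h1 l.1 l.2⟩ : A))
    (fun x y hxy => hf hxy) ?_).symm
  rintro ⟨a, ha⟩
  obtain ⟨l, hl, h⟩ := h2 a ha
  exact ⟨_, ⟨⟨l, hl⟩, rfl⟩, h⟩

theorem cof_of_map_dual {K : Type u} [LinearOrder K] (S : Set K) (B : Set T) (f : K → T)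
    (hf : StrictMono f) (h1 : ∀ l ∈ S, f l ∈ B) (h2 : ∀ b ∈ B, ∃ l ∈ S, f l ≤ b) :
    Order.cof (OrderDual B) = Order.cof (OrderDual S) :=
  cof_of_map (T := Tᵒᵈ) (K := Kᵒᵈ) S B f hf.dual h1 h2

theorem cof_univ (K : Type u) [LinearOrder K] : Order.cof (univ : Set K) = Order.cof K :=
  OrderIso.cof_congr OrderIso.Set.univ

theorem cof_univ_dual (K : Type u) [LinearOrder K] :
    Order.cof (OrderDual (univ : Set K)) = Order.cof (OrderDual K) :=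
  cof_univ Kᵒᵈ

end Pool.Agent.H465Z.Cut
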