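import Pool.Agent.H465Z.CutA

/-! The chain of eventually constant transfinite sequences, ordered lexicographically. -/

namespace Pool.Agent.H465Z.Cut

open Cardinal Set

universe u

variable {Λ : Type u} [LinearOrder Λ] [WellFoundedLT Λ] {L : Type u} [LinearOrder L]

variable (Λ) in
/-- sequences that are eventually equal to `o` -/
def TT (o : L) : Type u := {f : Lex (Λ → L) // ∃ ξ, ∀ η, ξ ≤ η → ofLex f η = o}

variable {o : L}

noncomputable instance : LinearOrder (TT Λ o) :=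
  inferInstanceAs (LinearOrder {f : Lex (Λ → L) // ∃ ξ, ∀ η, ξ ≤ η → ofLex f η = o})

def TT.fn (x : TT Λ o) : Λ → L := ofLex x.1

def TT.mk (f : Λ → L) (hf : ∃ ξ, ∀ η, ξ ≤ η → f η = o) : TT Λ o := ⟨toLex f, hf⟩

omit [WellFoundedLT Λ] [LinearOrder L] in
@[simp] theorem TT.fn_mk (f : Λ → L) (hf : ∃ ξ, ∀ η, ξ ≤ η → f η = o) :
    (TT.mk f hf).fn = f := rfl

omit [WellFoundedLT Λ] [LinearOrder L] in
theorem TT.ev (x : TT Λ o) : ∃ ξ, ∀ η, ξ ≤ η → x.fn η = o := x.2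

omit [WellFoundedLT Λ] [LinearOrder L] in
theorem TT.ext {x y : TT Λ o} (h : x.fn = y.fn) : x = y := Subtype.ext h

theorem TT.lt_iff {x y : TT Λ o} :
    x < y ↔ ∃ i, (∀ j < i, x.fn j = y.fn j) ∧ x.fn i < y.fn i := Iff.rfl

/-- agreement below a level -/
def Ag (ξ : Λ) (x y : TT Λ o) : Prop := ∀ j < ξ, x.fn j = y.fn j

omit [WellFoundedLT Λ] [LinearOrder L] in
theorem Ag.symm {ξ : Λ} {x y : TT Λ o} (h : Ag ξ x y) : Ag ξ y x := fun j hj => (h j hj).symm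

omit [WellFoundedLT Λ] [LinearOrder L] in
theorem Ag.trans {ξ : Λ} {x y z : TT Λ o} (h : Ag ξ x y) (h' : Ag ξ y z) : Ag ξ x z :=
  fun j hj => (h j hj).trans (h' j hj)

omit [WellFoundedLT Λ] [LinearOrder L] in
theorem Ag.mono {ξ ζ : Λ} {x y : TT Λ o} (h : Ag ξ x y) (h' : ζ ≤ ξ) : Ag ζ x y :=
  fun j hj => h j (hj.trans_le h')

omit [WellFoundedLT Λ] [LinearOrder L] in
theorem Ag.refl (ξ : Λ) (x : TT Λ o) : Ag ξ x x := fun _ _ => rfl

theorem lt_of_ag {x y : TT Λ o} {i : Λ} (h : Ag i x y) (h' : x.fn i < y.fn i) : x < y :=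
  TT.lt_iff.2 ⟨i, h, h'⟩

theorem le_of_ag {x y : TT Λ o} {i : Λ} (h : Ag i x y) (h' : x ≤ y) : x.fn i ≤ y.fn i := by
  by_contra hc
  exact absurd (lt_of_ag h.symm (not_le.1 hc)) (not_lt.2 h')

omit [LinearOrder L] in
theorem first_below {α : Λ} {x y : TT Λ o} (h : ¬ Ag α x y) :
    ∃ i < α, Ag i x y ∧ x.fn i ≠ y.fn i := by
  have h1 : {i | i < α ∧ x.fn i ≠ y.fn i}.Nonempty := by
    by_contra hc
    apply h
    intro j hj
    by_contra hne
    exact hc ⟨j, hj, hne⟩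
  obtain ⟨h2, h3⟩ := wellFounded_lt.min_mem _ h1
  refine ⟨_, h2, fun j hj => ?_, h3⟩
  by_contra hne
  exact wellFounded_lt.not_lt_min {i | i < α ∧ x.fn i ≠ y.fn i} ⟨hj.trans h2, hne⟩ hj

theorem ag_of_between {α : Λ} {a b z : TT Λ o} (hab : Ag α a b) (haz : a ≤ z) (hzb : z ≤ b) :
    Ag α a z := by
  by_contra hcon
  obtain ⟨i, hiα, hi, hne⟩ := first_below hcon
  have h1 := le_of_ag hi haz
  have h2 := le_of_ag (hi.symm.trans (hab.mono hiα.le)) hzb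
  rw [← hab i hiα] at h2
  exact hne (le_antisymm h1 h2)

/-- an element below a node and outside it is below the whole node -/
theorem lt_of_not_ag {α : Λ} {a b z : TT Λ o} (hbz : Ag α b z) (hab : a ≤ b) (h : ¬ Ag α a b) :
    a < z := by
  by_contra hc
  exact h (ag_of_between hbz.symm (not_lt.1 hc) hab |>.symm.trans hbz.symm)

theorem gt_of_not_ag {α : Λ} {a b z : TT Λ o} (hbz : Ag α b z) (hab : b ≤ a) (h : ¬ Ag α a b) :
    z < a := by
  by_contra hc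
  exact h (ag_of_between hbz hab (not_lt.1 hc)).symm

theorem exists_next [NoMaxOrder Λ] (δ : Λ) : ∃ ε, δ < ε ∧ ∀ j < ε, j ≤ δ := by
  have h : (Ioi δ).Nonempty := exists_gt δ
  refine ⟨wellFounded_lt.min _ h, wellFounded_lt.min_mem _ h, fun j hj => ?_⟩
  by_contra hc
  exact wellFounded_lt.not_lt_min (Ioi δ) (not_le.1 hc) hj

variable [NoMaxOrder Λ]

open Classical in
/-- follow `z` below `ε`, put `l` at `ε` and `o` afterwards -/
noncomputable def ext1 (z : TT Λ o) (ε : Λ) (l : L) : TT Λ o :=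
  TT.mk (fun η => if η < ε then z.fn η else if η = ε then l else o) (by
    obtain ⟨ξ, hξ⟩ := exists_gt ε
    refine ⟨ξ, fun η hη => ?_⟩
    have h := hξ.trans_le hη
    simp [h.ne', h.le.not_gt])

omit [WellFoundedLT Λ] [LinearOrder L] in
theorem ext1_ag (z : TT Λ o) (ε : Λ) (l : L) : Ag ε (ext1 z ε l) z := by
  intro j hj
  simp [ext1, hj]

omit [WellFoundedLT Λ] [LinearOrder L] in
theorem ext1_at (z : TT Λ o) (ε : Λ) (l : L) : (ext1 z ε l).fn ε = l := by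
  simp [ext1]

theorem ext1_mono (z : TT Λ o) (ε : Λ) : StrictMono (ext1 z ε) := fun l l' h =>
  lt_of_ag ((ext1_ag z ε l).trans (ext1_ag z ε l').symm) (by rwa [ext1_at, ext1_at])

theorem TT.dense [NoMaxOrder L] : DenselyOrdered (TT Λ o) := by
  refine ⟨fun x y h => ?_⟩
  obtain ⟨i, hi, hi'⟩ := TT.lt_iff.1 h
  obtain ⟨k, hk⟩ := exists_gt i
  obtain ⟨l, hl⟩ := exists_gt (x.fn k)
  refine ⟨ext1 x k l, lt_of_ag (ext1_ag x k l).symm (by rwa [ext1_at]), ?_⟩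
  refine lt_of_ag (((ext1_ag x k l).mono hk.le).trans hi) ?_
  rwa [ext1_ag x k l i hk]

omit [NoMaxOrder Λ] in
/-- every node is a convex copy of the whole chain -/
theorem node_map (htail : ∀ ξ : Λ, Nonempty (Λ ≃o Ici ξ)) (z : TT Λ o) (ξ : Λ) :
    ∃ p : TT Λ o → TT Λ o, StrictMono p ∧ (∀ g, (∃ x, p x = g) ↔ Ag ξ g z) ∧
      ((∀ η, ξ ≤ η → z.fn η = o) → p (TT.mk (fun _ => o) ⟨ξ, fun _ _ => rfl⟩) = z) := by
  classical
  obtain ⟨e⟩ := htail ξ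
  let p : TT Λ o → TT Λ o := fun f =>
    TT.mk (fun η => if h : η < ξ then z.fn η else f.fn (e.symm ⟨η, not_lt.1 h⟩)) (by
      obtain ⟨ζ, hζ⟩ := f.ev
      refine ⟨e ζ, fun η hη => ?_⟩
      have h : ξ ≤ η := (e ζ).2.trans hη
      rw [dif_neg h.not_gt]
      apply hζ
      rw [e.le_symm_apply]
      exact hη)
  have hp1 : ∀ f η, η < ξ → (p f).fn η = z.fn η := fun f η h => by simp [p, h]
  have hp2 : ∀ f i, (p f).fn (e i) = f.fn i := fun f i => by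
    have h : ¬ ((e i : Λ) < ξ) := not_lt.2 (e i).2
    simp [p, h]
  refine ⟨p, fun f g hfg => ?_, fun g => ⟨?_, fun hg => ?_⟩, fun hz => ?_⟩
  · obtain ⟨i, hi, hi'⟩ := TT.lt_iff.1 hfg
    refine lt_of_ag (i := e i) (fun j hj => ?_) (by rwa [hp2, hp2])
    by_cases h : j < ξ
    · rw [hp1 _ _ h, hp1 _ _ h]
    · have h2 : j = e (e.symm ⟨j, not_lt.1 h⟩) := by simp
      rw [h2, hp2, hp2]
      apply hi
      rw [e.symm_apply_lt]
      exact hj
  · rintro ⟨x, rfl⟩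
    exact hp1 x
  · refine ⟨TT.mk (fun i => g.fn (e i)) ?_, TT.ext (funext fun j => ?_)⟩
    · obtain ⟨ζ, hζ⟩ := g.ev
      refine ⟨e.symm ⟨max ζ ξ, le_max_right _ _⟩, fun η hη => hζ _ ?_⟩
      rw [e.symm_apply_le] at hη
      exact (le_max_left _ _).trans hη
    · by_cases h : j < ξ
      · rw [hp1 _ _ h, hg j h]
      · have h2 : j = e (e.symm ⟨j, not_lt.1 h⟩) := by simp
        rw [h2, hp2]
        simp
  · refine TT.ext (funext fun j => ?_)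
    by_cases h : j < ξ
    · rw [hp1 _ _ h]
    · have h2 : j = e (e.symm ⟨j, not_lt.1 h⟩) := by simp
      rw [hz j (not_lt.1 h), h2, hp2]
      rfl

theorem TT.twoHomogeneous [Nonempty Λ] (htail : ∀ ξ : Λ, Nonempty (Λ ≃o Ici ξ)) {o1 o2 : L}
    (h1 : o1 < o) (h1' : ∀ w, w < o → w ≤ o1) (h2 : o < o2) (h2' : ∀ w, o < w → o2 ≤ w) :
    TwoHomogeneous (TT Λ o) := by
  refine homog (TT.mk (fun _ => o) ⟨Classical.arbitrary Λ, fun _ _ => rfl⟩) fun a b hab => ?_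
  obtain ⟨i, hi, hi'⟩ := TT.lt_iff.1 hab
  obtain ⟨ξa, ha⟩ := a.ev
  obtain ⟨ξb, hb⟩ := b.ev
  obtain ⟨ξ, hξ⟩ := exists_gt (max i (max ξa ξb))
  simp only [max_lt_iff] at hξ
  obtain ⟨hiξ, haξ, hbξ⟩ := hξ
  obtain ⟨ζ, hζ, hζ'⟩ := exists_next ξ
  obtain ⟨p, hp, hp1, hp2⟩ := node_map htail a ζ
  obtain ⟨q, hq, hq1, hq2⟩ := node_map htail b ζ
  obtain ⟨f1, hf1, hf1', -⟩ := node_map htail (ext1 a ξ o2) ζ
  obtain ⟨f2, hf2, hf2', -⟩ := node_map htail (ext1 b ξ o1) ζ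
  have a1 : ∀ x, Ag ζ (p x) a := fun x => (hp1 _).1 ⟨x, rfl⟩
  have a2 : ∀ x, Ag ζ (q x) b := fun x => (hq1 _).1 ⟨x, rfl⟩
  have a3 : ∀ x, Ag ζ (f1 x) (ext1 a ξ o2) := fun x => (hf1' _).1 ⟨x, rfl⟩
  have a4 : ∀ x, Ag ζ (f2 x) (ext1 b ξ o1) := fun x => (hf2' _).1 ⟨x, rfl⟩
  have a5 : ∀ x, Ag ξ (f1 x) a := fun x => ((a3 x).mono hζ.le).trans (ext1_ag _ _ _)
  have a6 : ∀ x, Ag ξ (f2 x) b := fun x => ((a4 x).mono hζ.le).trans (ext1_ag _ _ _)
  have a7 : ∀ x, (f1 x).fn ξ = o2 := fun x => by rw [a3 x ξ hζ, ext1_at]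
  have a8 : ∀ x, (f2 x).fn ξ = o1 := fun x => by rw [a4 x ξ hζ, ext1_at]
  have hao : a.fn ξ = o := ha ξ haξ.le
  have hbo : b.fn ξ = o := hb ξ hbξ.le
  obtain ⟨h, hh, hh'⟩ := hull f1 f2 hf1 hf2
    (fun x y w b1 b2 => (hf1' w).2
      ((ag_of_between ((a3 x).trans (a3 y).symm) b1 b2).symm.trans (a3 x)))
    (fun x y w b1 b2 => (hf2' w).2
      ((ag_of_between ((a4 x).trans (a4 y).symm) b1 b2).symm.trans (a4 x)))
    (fun y => ⟨y, (lt_of_ag (i := i)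
      (((a5 y).mono hiξ.le).trans (Ag.trans hi ((a6 y).mono hiξ.le).symm))
      (by rwa [a5 y i hiξ, a6 y i hiξ])).le⟩)
  refine ⟨p, h, q, hp, hh, hq, fun x y => ?_, fun y x => ?_,
    hp2 fun η hη => ha η (haξ.le.trans (hζ.le.trans hη)),
    hq2 fun η hη => hb η (hbξ.le.trans (hζ.le.trans hη)), fun g hag hgb => ?_⟩
  · obtain ⟨⟨x', hx'⟩, -⟩ := (hh' (h y)).1 ⟨y, rfl⟩
    refine lt_of_lt_of_le (lt_of_ag (i := ξ) (((a1 x).mono hζ.le).trans (a5 x').symm) ?_) hx'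
    rwa [a1 x ξ hζ, a7, hao]
  · obtain ⟨-, y', hy'⟩ := (hh' (h y)).1 ⟨y, rfl⟩
    refine lt_of_le_of_lt hy' (lt_of_ag (i := ξ) ((a6 y').trans ((a2 x).mono hζ.le).symm) ?_)
    rwa [a2 x ξ hζ, a8, hbo]
  · by_cases c1 : Ag ζ g a
    · exact Or.inl ((hp1 g).2 c1)
    by_cases c2 : Ag ζ g b
    · exact Or.inr (Or.inr ((hq1 g).2 c2))
    refine Or.inr (Or.inl ((hh' g).2 ⟨?_, ?_⟩))
    · by_cases c3 : Ag ξ g a
      · have d1 : o < g.fn ξ := by
          refine lt_of_le_of_ne (hao.ge.trans (le_of_ag c3.symm hag)) fun d => c1 fun j hj => ?_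
          rcases (hζ' j hj).lt_or_eq with d2 | rfl
          · exact c3 j d2
          · rw [← d, hao]
        rcases (h2' _ d1).lt_or_eq with d2 | d2
        · exact ⟨g, (lt_of_ag ((a5 g).trans c3.symm) (by rwa [a7])).le⟩
        · obtain ⟨x, hx⟩ := (hf1' g).2 fun j hj => by
            rcases (hζ' j hj).lt_or_eq with d3 | rfl
            · rw [c3 j d3, ext1_ag _ _ _ j d3]
            · rw [ext1_at, d2]
          exact ⟨x, hx.le⟩
      · exact ⟨g, (gt_of_not_ag (a5 g).symm hag c3).le⟩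
    · by_cases c3 : Ag ξ g b
      · have d1 : g.fn ξ < o := by
          refine lt_of_le_of_ne ((le_of_ag c3 hgb).trans hbo.le) fun d => c2 fun j hj => ?_
          rcases (hζ' j hj).lt_or_eq with d2 | rfl
          · exact c3 j d2
          · rw [d, hbo]
        rcases (h1' _ d1).lt_or_eq with d2 | d2
        · exact ⟨g, (lt_of_ag (c3.trans (a6 g).symm) (by rwa [a8])).le⟩
        · obtain ⟨x, hx⟩ := (hf2' g).2 fun j hj => by
            rcases (hζ' j hj).lt_or_eq with d3 | rfl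
            · rw [c3 j d3, ext1_ag _ _ _ j d3]
            · rw [ext1_at, d2]
          exact ⟨x, hx.ge⟩
      · exact ⟨g, (lt_of_not_ag (a6 g).symm hgb c3).le⟩

end Pool.Agent.H465Z.Cut
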