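import Pool.Agent.H465Z.CutB

/-! The cuts of the chain of eventually constant sequences. -/

namespace Pool.Agent.H465Z.Cut

open Cardinal Set

universe u

variable {Λ : Type u} [LinearOrder Λ] [WellFoundedLT Λ] {L : Type u} [LinearOrder L] {o : L}
  [NoMaxOrder Λ] [NoMaxOrder L] [NoMinOrder L]

/-- gaps of the chain `L` -/
structure IsGap (S : Set L) : Prop where
  lower : ∀ a ∈ S, ∀ b, b ≤ a → b ∈ S
  ne1 : ∃ a, a ∈ S
  ne2 : ∃ b, b ∉ S
  no_max : ∀ a ∈ S, ∃ a' ∈ S, a < a'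
  no_min : ∀ b ∉ S, ∃ b' ∉ S, b' < b

theorem node_sub {A B : Set (TT Λ o)} (hcut : IsCut A B) (z : TT Λ o) (δ : Λ)
    (h : ∀ a ∈ A, ∀ b ∈ B, ¬ Ag δ a b) :
    (∀ g, Ag δ g z → g ∈ A) ∨ (∀ g, Ag δ g z → g ∈ B) := by
  have key : ∀ g, Ag δ g z → g ∈ A ∨ g ∈ B := by
    intro g hg
    rcases hcut.cover with hc | ⟨r, hr1, hr2, hc⟩
    · exact hc.ge (mem_univ g)
    · rcases hc.ge (mem_univ g) with (h1 | h1) | h1
      · exact Or.inl h1
      · exfalso
        rw [mem_singleton_iff] at h1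
        subst h1
        obtain ⟨l1, hl1⟩ := exists_lt (g.fn δ)
        obtain ⟨l2, hl2⟩ := exists_gt (g.fn δ)
        have b1 : ext1 g δ l1 < g := lt_of_ag (ext1_ag _ _ _) (by rwa [ext1_at])
        have b2 : g < ext1 g δ l2 := lt_of_ag (ext1_ag _ _ _).symm (by rwa [ext1_at])
        refine h (ext1 g δ l1) ?_ (ext1 g δ l2) ?_ ((ext1_ag _ _ _).trans (ext1_ag _ _ _).symm)
        · rcases hc.ge (mem_univ (ext1 g δ l1)) with (h2 | h2) | h2
          · exact h2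
          · exact absurd h2 b1.ne
          · exact absurd (hr2 _ h2) b1.not_gt
        · rcases hc.ge (mem_univ (ext1 g δ l2)) with (h2 | h2) | h2
          · exact absurd (hr1 _ h2) b2.not_gt
          · exact absurd h2 b2.ne'
          · exact h2
      · exact Or.inr h1
  rcases key z (Ag.refl _ _) with hz | hz
  · left
    intro g hg
    exact (key g hg).resolve_right fun hb => h z hz g hb hg.symm
  · right
    intro g hg
    exact (key g hg).resolve_left fun ha => h g ha z hz hg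

omit [NoMinOrder L] in
theorem cof_node_left {A : Set (TT Λ o)} (z : TT Λ o) (δ : Λ) (h1 : ∀ g, Ag δ g z → g ∈ A)
    (h2 : ∀ a ∈ A, ¬ Ag δ a z → a ≤ z) : Order.cof A = Order.cof L := by
  rw [← cof_univ L]
  refine cof_of_map univ A (ext1 z δ) (ext1_mono z δ) (fun l _ => h1 _ (ext1_ag _ _ _))
    fun a ha => ?_
  obtain ⟨l, hl⟩ := exists_gt (a.fn δ)
  refine ⟨l, mem_univ _, ?_⟩
  by_cases hc : Ag δ a z
  · exact (lt_of_ag (hc.trans (ext1_ag _ _ _).symm) (by rwa [ext1_at])).le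
  · exact (lt_of_not_ag (ext1_ag _ _ _).symm (h2 a ha hc) hc).le

omit [NoMaxOrder L] in
theorem cof_node_right {B : Set (TT Λ o)} (z : TT Λ o) (δ : Λ) (h1 : ∀ g, Ag δ g z → g ∈ B)
    (h2 : ∀ a ∈ B, ¬ Ag δ a z → z ≤ a) :
    Order.cof (OrderDual B) = Order.cof (OrderDual L) := by
  rw [← cof_univ_dual L]
  refine cof_of_map_dual univ B (ext1 z δ) (ext1_mono z δ) (fun l _ => h1 _ (ext1_ag _ _ _))
    fun a ha => ?_
  obtain ⟨l, hl⟩ := exists_lt (a.fn δ)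
  refine ⟨l, mem_univ _, ?_⟩
  by_cases hc : Ag δ a z
  · exact (lt_of_ag ((ext1_ag _ _ _).trans hc.symm) (by rwa [ext1_at])).le
  · exact (gt_of_not_ag (ext1_ag _ _ _).symm (h2 a ha hc) hc).le

omit [NoMaxOrder L] [NoMinOrder L] in
theorem cof_branch {A B : Set (TT Λ o)} (hcut : IsCut A B)
    (h : ∀ ξ : Λ, ∃ a ∈ A, ∃ b ∈ B, Ag ξ a b) : Order.cof Λ ≤ Order.cof A := by
  rw [Order.le_cof_iff]
  intro Y hY
  have h1 : ∀ y : A, ∃ η : Λ, ∃ y' ∈ A, Ag η y.1 y' ∧ y.1.fn η < y'.fn η := by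
    rintro ⟨y, hy⟩
    obtain ⟨y', hy', hlt⟩ := hcut.no_max y hy
    obtain ⟨i, hi, hi'⟩ := TT.lt_iff.1 hlt
    exact ⟨i, y', hy', hi, hi'⟩
  choose η hη using h1
  refine (Order.cof_le (s := η '' Y) fun ξ => ?_).trans mk_image_le
  obtain ⟨ζ, hζ⟩ := exists_gt ξ
  obtain ⟨a, ha, b, hb, hab⟩ := h ζ
  obtain ⟨y, hy, hay⟩ := hY ⟨a, ha⟩
  refine ⟨η y, ⟨y, hy, rfl⟩, ?_⟩
  by_contra hc
  have hlt : η y < ζ := (not_le.1 hc).trans hζ
  obtain ⟨y', hy', e1, e2⟩ := hη y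
  have e3 : y.1 < y' := lt_of_ag e1 e2
  have e4 := ag_of_between hab hay (hcut.lt _ y.2 _ hb).le
  have e5 := ag_of_between hab (le_trans hay e3.le) (hcut.lt _ hy' _ hb).le
  rw [← e4 _ hlt, ← e5 _ hlt] at e2
  exact lt_irrefl _ e2

theorem cut_cases {A B : Set (TT Λ o)} (hcut : IsCut A B) :
    Order.cof Λ ≤ Order.cof A ∨ Order.cof A = Order.cof L ∨
      Order.cof (OrderDual B) = Order.cof (OrderDual L) ∨
      ∃ S : Set L, IsGap S ∧ Order.cof A = Order.cof S ∧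
        Order.cof (OrderDual B) = Order.cof (OrderDual (Sᶜ : Set L)) := by
  classical
  by_cases hall : ∀ ξ : Λ, ∃ a ∈ A, ∃ b ∈ B, Ag ξ a b
  · exact Or.inl (cof_branch hcut hall)
  right
  have hne : {ξ : Λ | ¬ ∃ a ∈ A, ∃ b ∈ B, Ag ξ a b}.Nonempty := by
    push Not at hall
    obtain ⟨ξ, hξ⟩ := hall
    exact ⟨ξ, by simpa using hξ⟩
  obtain ⟨δ, hδ, hmin⟩ : ∃ δ : Λ, (∀ a ∈ A, ∀ b ∈ B, ¬ Ag δ a b) ∧
      ∀ ξ < δ, ∃ a ∈ A, ∃ b ∈ B, Ag ξ a b := by
    refine ⟨wellFounded_lt.min _ hne, ?_, fun ξ hξ => ?_⟩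
    · have := wellFounded_lt.min_mem _ hne
      simpa using this
    · by_contra hc
      exact wellFounded_lt.not_lt_min {ξ : Λ | ¬ ∃ a ∈ A, ∃ b ∈ B, Ag ξ a b} hc hξ
  have hdisj : ∀ g ∈ A, g ∉ B := fun g ha hb => lt_irrefl _ (hcut.lt g ha g hb)
  by_cases hs : ∃ ε < δ, ∀ j < δ, j ≤ ε
  · obtain ⟨ε, hε, hε'⟩ := hs
    obtain ⟨a0, ha0, b0, hb0, hab0⟩ := hmin ε hε
    have hag : ∀ g, Ag ε g a0 → Ag δ g (ext1 a0 ε (g.fn ε)) := by
      intro g hg j hj
      rcases (hε' j hj).lt_or_eq with d | rfl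
      · rw [hg j d, ext1_ag _ _ _ j d]
      · rw [ext1_at]
    let S : Set L := {l | ext1 a0 ε l ∈ A}
    have hA : ∀ g, Ag ε g a0 → (g ∈ A ↔ g.fn ε ∈ S) := by
      intro g hg
      rcases node_sub hcut (ext1 a0 ε (g.fn ε)) δ hδ with h | h
      · exact iff_of_true (h g (hag g hg)) (h _ (Ag.refl _ _))
      · exact iff_of_false (fun h' => hdisj g h' (h g (hag g hg)))
          (fun h' => hdisj _ h' (h _ (Ag.refl _ _)))
    have hB : ∀ g, Ag ε g a0 → (g ∈ B ↔ g.fn ε ∉ S) := by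
      intro g hg
      rcases node_sub hcut (ext1 a0 ε (g.fn ε)) δ hδ with h | h
      · exact iff_of_false (hdisj g (h g (hag g hg))) (fun h' => h' (h _ (Ag.refl _ _)))
      · exact iff_of_true (h g (hag g hg)) (fun h' => hdisj _ h' (h _ (Ag.refl _ _)))
    have hSB : ∀ l ∉ S, ext1 a0 ε l ∈ B := fun l hl =>
      (hB _ (ext1_ag _ _ _)).2 (by rwa [ext1_at])
    have hlow : ∀ a ∈ S, ∀ b, b ≤ a → b ∈ S := by
      intro a ha b hba
      by_contra hb
      exact absurd (hcut.lt _ ha _ (hSB b hb)) (not_lt.2 ((ext1_mono a0 ε).monotone hba))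
    have hAout : ∀ a ∈ A, ¬ Ag ε a a0 → ∀ l, a < ext1 a0 ε l := fun a ha h l =>
      lt_of_not_ag (hab0.symm.trans (ext1_ag _ _ _).symm) (hcut.lt a ha b0 hb0).le
        fun h' => h (h'.trans hab0.symm)
    have hBout : ∀ b ∈ B, ¬ Ag ε b a0 → ∀ l, ext1 a0 ε l < b := fun b hb h l =>
      gt_of_not_ag (ext1_ag _ _ _).symm (hcut.lt a0 ha0 b hb).le h
    by_cases hmax : ∀ a ∈ S, ∃ a' ∈ S, a < a'
    · by_cases hmin' : ∀ b ∉ S, ∃ b' ∉ S, b' < b
      · right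
        right
        have n1 : a0.fn ε ∈ S := (hA a0 (Ag.refl _ _)).1 ha0
        have n2 : b0.fn ε ∉ S := (hB b0 hab0.symm).1 hb0
        refine ⟨S, ⟨hlow, ⟨_, n1⟩, ⟨_, n2⟩, hmax, hmin'⟩, ?_, ?_⟩
        · refine cof_of_map S A (ext1 a0 ε) (ext1_mono a0 ε) (fun l hl => hl) fun a ha => ?_
          by_cases hc : Ag ε a a0
          · obtain ⟨l, hl, hl'⟩ := hmax _ ((hA a hc).1 ha)
            exact ⟨l, hl, (lt_of_ag (hc.trans (ext1_ag _ _ _).symm) (by rwa [ext1_at])).le⟩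
          · exact ⟨_, n1, (hAout a ha hc _).le⟩
        · refine cof_of_map_dual Sᶜ B (ext1 a0 ε) (ext1_mono a0 ε) hSB fun b hb => ?_
          by_cases hc : Ag ε b a0
          · obtain ⟨l, hl, hl'⟩ := hmin' _ ((hB b hc).1 hb)
            exact ⟨l, hl, (lt_of_ag ((ext1_ag _ _ _).trans hc.symm) (by rwa [ext1_at])).le⟩
          · exact ⟨_, n2, (hBout b hb hc _).le⟩
      · right
        left
        push Not at hmin'
        obtain ⟨m, hm, hm'⟩ := hmin'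
        refine cof_node_right (ext1 a0 ε m) δ (fun g hg => ?_) fun b hb hc => ?_
        · refine (hB g ((hg.mono hε.le).trans (ext1_ag _ _ _))).2 ?_
          rwa [hg ε hε, ext1_at]
        · by_cases hc' : Ag ε b a0
          · rcases (hm' _ ((hB b hc').1 hb)).lt_or_eq with d | d
            · exact (lt_of_ag ((ext1_ag _ _ _).trans hc'.symm) (by rwa [ext1_at])).le
            · exact absurd (d ▸ hag b hc') hc
          · exact (hBout b hb hc' _).le
    · left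
      push Not at hmax
      obtain ⟨m, hm, hm'⟩ := hmax
      refine cof_node_left (ext1 a0 ε m) δ (fun g hg => ?_) fun a ha hc => ?_
      · refine (hA g ((hg.mono hε.le).trans (ext1_ag _ _ _))).2 ?_
        rwa [hg ε hε, ext1_at]
      · by_cases hc' : Ag ε a a0
        · rcases (hm' _ ((hA a hc').1 ha)).lt_or_eq with d | d
          · exact (lt_of_ag (hc'.trans (ext1_ag _ _ _).symm) (by rwa [ext1_at])).le
          · exact absurd (d ▸ hag a hc') hc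
        · exact (hAout a ha hc' _).le
  · push Not at hs
    choose! nx hnx hnx' using hs
    have : Nonempty (TT Λ o) := ⟨hcut.left_nonempty.some⟩
    choose! a ha b hb hab using hmin
    have hagree : ∀ ξ < δ, ∀ ξ' < δ, ∀ η < ξ, η < ξ' → (a ξ).fn η = (a ξ').fn η := by
      intro ξ hξ ξ' hξ' η h1 h2
      rcases le_total (a ξ) (a ξ') with h | h
      · exact ag_of_between (hab ξ hξ) h (hcut.lt _ (ha ξ' hξ') _ (hb ξ hξ)).le η h1
      · exact (ag_of_between (hab ξ' hξ') h (hcut.lt _ (ha ξ hξ) _ (hb ξ' hξ')).le η h2).symm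
    let z : TT Λ o := TT.mk (fun η => if η < δ then (a (nx η)).fn η else o)
      ⟨δ, fun η hη => by simp [hη.not_gt]⟩
    have hz : ∀ ξ < δ, Ag ξ (a ξ) z := by
      intro ξ hξ η hη
      have h1 := hη.trans hξ
      simp only [z, TT.fn_mk, h1, if_true]
      exact hagree ξ hξ _ (hnx η h1) η hη (hnx' η h1)
    rcases node_sub hcut z δ hδ with h | h
    · left
      refine cof_node_left z δ h fun g hg hc => ?_
      obtain ⟨i, hi, -, hi'⟩ := first_below hc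
      have h1 := hnx i hi
      refine (lt_of_not_ag ((hab _ h1).symm.trans (hz _ h1))
        (hcut.lt g hg _ (hb _ h1)).le fun h' => hi' ?_).le
      exact (h'.trans ((hab _ h1).symm.trans (hz _ h1))) i (hnx' i hi)
    · right
      left
      refine cof_node_right z δ h fun g hg hc => ?_
      obtain ⟨i, hi, -, hi'⟩ := first_below hc
      have h1 := hnx i hi
      refine (gt_of_not_ag (hz _ h1) (hcut.lt _ (ha _ h1) g hg).le fun h' => hi' ?_).le
      exact (h'.trans (hz _ h1)) i (hnx' i hi)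

omit [NoMaxOrder L] [NoMinOrder L] in
theorem cut_of_gap [Nonempty Λ] {S : Set L} (hS : IsGap S) :
    ∃ A B : Set (TT Λ o), IsCut A B ∧ Order.cof A = Order.cof S ∧
      Order.cof (OrderDual B) = Order.cof (OrderDual (Sᶜ : Set L)) := by
  obtain ⟨ε, hε⟩ : ∃ ε : Λ, ∀ j, ¬ j < ε :=
    ⟨wellFounded_lt.min univ univ_nonempty, fun j =>
      wellFounded_lt.not_lt_min univ (mem_univ j)⟩
  have hag : ∀ x y : TT Λ o, Ag ε x y := fun x y j hj => absurd hj (hε j)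
  let z : TT Λ o := TT.mk (fun _ => o) ⟨ε, fun _ _ => rfl⟩
  obtain ⟨a0, ha0⟩ := hS.ne1
  obtain ⟨b0, hb0⟩ := hS.ne2
  have hA : ∀ a : TT Λ o, a.fn ε ∈ S → ∃ l ∈ S, a < ext1 z ε l := fun a ha => by
    obtain ⟨l, hl, hl'⟩ := hS.no_max _ ha
    exact ⟨l, hl, lt_of_ag (hag _ _) (by rwa [ext1_at])⟩
  have hB : ∀ b : TT Λ o, b.fn ε ∉ S → ∃ l ∉ S, ext1 z ε l < b := fun b hb => by
    obtain ⟨l, hl, hl'⟩ := hS.no_min _ hb
    exact ⟨l, hl, lt_of_ag (hag _ _) (by rwa [ext1_at])⟩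
  refine ⟨{g | g.fn ε ∈ S}, {g | g.fn ε ∉ S}, ⟨⟨ext1 z ε a0, ?_⟩, ⟨ext1 z ε b0, ?_⟩,
    fun a ha b hb => lt_of_ag (hag _ _) ?_, fun a ha => ?_, fun b hb => ?_, Or.inl ?_⟩, ?_, ?_⟩
  · simpa [ext1_at] using ha0
  · simpa [ext1_at] using hb0
  · by_contra hc
    exact hb (hS.lower _ ha _ (not_lt.1 hc))
  · obtain ⟨l, hl, hl'⟩ := hA a ha
    exact ⟨_, by simpa [ext1_at] using hl, hl'⟩
  · obtain ⟨l, hl, hl'⟩ := hB b hb
    exact ⟨_, by simpa [ext1_at] using hl, hl'⟩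
  · ext g
    simp [em]
  · refine cof_of_map S _ (ext1 z ε) (ext1_mono z ε) (fun l hl => by simpa [ext1_at] using hl)
      fun a ha => ?_
    obtain ⟨l, hl, hl'⟩ := hA a ha
    exact ⟨l, hl, hl'.le⟩
  · refine cof_of_map_dual Sᶜ _ (ext1 z ε) (ext1_mono z ε)
      (fun l hl => by simpa [ext1_at] using hl) fun b hb => ?_
    obtain ⟨l, hl, hl'⟩ := hB b hb
    exact ⟨l, hl, hl'.le⟩

end Pool.Agent.H465Z.Cut
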