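import Pool.Agent.H465Z.CutC

/-! The letter chain with prescribed gaps, and the main theorem. -/

namespace Pool.Agent.H465Z.Cut

open Cardinal Set

universe u

theorem exists_sum {I : Type u} [LinearOrder I] (U D : I → Type u) [∀ i, LinearOrder (U i)]
    [∀ i, LinearOrder (D i)] :
    ∃ (L : Type u) (_ : LinearOrder L) (idx : L → I) (up : ∀ i, U i → L) (dn : ∀ i, D i → L),
      (∀ a b, idx a < idx b → a < b) ∧ (∀ i x, idx (up i x) = i) ∧ (∀ i y, idx (dn i y) = i) ∧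
      (∀ i, StrictMono (up i)) ∧ (∀ i, StrictAnti (dn i)) ∧ (∀ i x y, up i x < dn i y) ∧
      ∀ a i, idx a = i → (∃ x, up i x = a) ∨ ∃ y, dn i y = a := by
  refine ⟨Σₗ i, (U i ⊕ₗ (D i)ᵒᵈ), inferInstance, fun a => (ofLex a).1,
    fun i x => toLex ⟨i, toLex (Sum.inl x)⟩,
    fun i y => toLex ⟨i, toLex (Sum.inr (OrderDual.toDual y))⟩, ?_, fun _ _ => rfl,
    fun _ _ => rfl, ?_, ?_, ?_, ?_⟩
  · intro a b h
    exact Sigma.Lex.lt_def.2 (Or.inl h)
  · intro i x x' h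
    exact Sigma.Lex.lt_def.2 (Or.inr ⟨rfl, Sum.Lex.inl_lt_inl_iff.2 h⟩)
  · intro i x x' h
    exact Sigma.Lex.lt_def.2 (Or.inr ⟨rfl, Sum.Lex.inr_lt_inr_iff.2 h⟩)
  · intro i x y
    exact Sigma.Lex.lt_def.2 (Or.inr ⟨rfl, Sum.Lex.inl_lt_inr _ _⟩)
  · rintro ⟨j, x | y⟩ i rfl
    · exact Or.inl ⟨x, rfl⟩
    · exact Or.inr ⟨y, rfl⟩

theorem exists_letters {I : Type u} [LinearOrder I] [WellFoundedLT I] [OrderBot I] [OrderTop I]
    (U D : I → Type u) [∀ i, LinearOrder (U i)] [∀ i, LinearOrder (D i)]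
    [∀ i, WellFoundedLT (U i)] [∀ i, WellFoundedLT (D i)]
    [∀ i, NoMaxOrder (U i)] [∀ i, NoMaxOrder (D i)]
    (hU : ∀ i, i ≠ ⊥ → Nonempty (U i)) (hD : ∀ i, i ≠ ⊤ → Nonempty (D i))
    (hU0 : IsEmpty (U ⊥)) (hD0 : IsEmpty (D ⊤)) (hbt : (⊥ : I) ≠ ⊤) :
    ∃ (L : Type u) (_ : LinearOrder L), NoMaxOrder L ∧ NoMinOrder L ∧
      (∃ o o1 o2 : L, o1 < o ∧ (∀ w, w < o → w ≤ o1) ∧ o < o2 ∧ ∀ w, o < w → o2 ≤ w) ∧
      Order.cof L = Order.cof (U ⊤) ∧ Order.cof (OrderDual L) = Order.cof (D ⊥) ∧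
      (∀ S : Set L, IsGap S → ∃ i, i ≠ ⊥ ∧ i ≠ ⊤ ∧ Order.cof S = Order.cof (U i) ∧
        Order.cof (OrderDual (Sᶜ : Set L)) = Order.cof (D i)) ∧
      ∀ i, i ≠ ⊥ → i ≠ ⊤ → ∃ S : Set L, IsGap S ∧ Order.cof S = Order.cof (U i) ∧
        Order.cof (OrderDual (Sᶜ : Set L)) = Order.cof (D i) := by
  obtain ⟨L, _, idx, up, dn, h1, h2, h3, h4, h5, h6, h7⟩ := exists_sum U D
  have h1' : ∀ a b, a ≤ b → idx a ≤ idx b := fun a b h => not_lt.1 fun hc => (h1 b a hc).not_ge h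
  -- cofinality of a set cut in the middle of block `i`
  have cU : ∀ (S : Set L) (i : I), Nonempty (U i) → (∀ x, up i x ∈ S) →
      (∀ a ∈ S, idx a ≤ i) → (∀ y, dn i y ∉ S) → Order.cof S = Order.cof (U i) := by
    rintro S i ⟨x0⟩ a1 a2 a3
    rw [← cof_univ (U i)]
    refine cof_of_map univ S (up i) (h4 i) (fun l _ => a1 l) fun a ha => ?_
    rcases (a2 a ha).lt_or_eq with d | d
    · exact ⟨x0, mem_univ _, (h1 _ _ (by rwa [h2])).le⟩
    · rcases h7 a i d with ⟨x, rfl⟩ | ⟨y, rfl⟩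
      · exact ⟨x, mem_univ _, le_rfl⟩
      · exact absurd ha (a3 y)
  have cD : ∀ (S : Set L) (i : I), Nonempty (D i) → (∀ y, dn i y ∈ S) →
      (∀ a ∈ S, i ≤ idx a) → (∀ x, up i x ∉ S) →
      Order.cof (OrderDual S) = Order.cof (D i) := by
    rintro S i ⟨y0⟩ a1 a2 a3
    rw [← cof_univ (D i)]
    refine cof_of_map (T := Lᵒᵈ) univ S (dn i) (h5 i) (fun l _ => a1 l) fun a ha => ?_
    rcases (a2 a ha).lt_or_eq with d | d
    · exact ⟨y0, mem_univ _, (h1 _ _ (by rwa [h3])).le⟩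
    · rcases h7 a i d.symm with ⟨x, rfl⟩ | ⟨y, rfl⟩
      · exact absurd ha (a3 x)
      · exact ⟨y, mem_univ _, le_rfl⟩
  obtain ⟨x0⟩ := hU ⊤ hbt.symm
  obtain ⟨y0⟩ := hD ⊥ hbt
  have htop : ∀ w, idx w = ⊤ → ∃ x, up ⊤ x = w := fun w hw =>
    (h7 w ⊤ hw).resolve_right fun ⟨y, _⟩ => hD0.false y
  have hbot : ∀ w, idx w = ⊥ → ∃ y, dn ⊥ y = w := fun w hw =>
    (h7 w ⊥ hw).resolve_left fun ⟨y, _⟩ => hU0.false y
  refine ⟨L, inferInstance, ⟨fun a => ?_⟩, ⟨fun a => ?_⟩, ?_, ?_, ?_, fun S hS => ?_,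
    fun i hi1 hi2 => ?_⟩
  · rcases (le_top : idx a ≤ ⊤).lt_or_eq with d | d
    · exact ⟨up ⊤ x0, h1 _ _ (by rwa [h2])⟩
    · obtain ⟨x, rfl⟩ := htop a d
      obtain ⟨x', hx'⟩ := exists_gt x
      exact ⟨_, h4 _ hx'⟩
  · rcases (bot_le : ⊥ ≤ idx a).lt_or_eq with d | d
    · exact ⟨dn ⊥ y0, h1 _ _ (by rwa [h3])⟩
    · obtain ⟨y, rfl⟩ := hbot a d.symm
      obtain ⟨y', hy'⟩ := exists_gt y
      exact ⟨_, h5 _ hy'⟩
  · obtain ⟨x1, hx1, hx1'⟩ := exists_next x0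
    obtain ⟨x2, hx2, hx2'⟩ := exists_next x1
    refine ⟨up ⊤ x1, up ⊤ x0, up ⊤ x2, h4 _ hx1, fun w hw => ?_, h4 _ hx2, fun w hw => ?_⟩
    · rcases (le_top : idx w ≤ ⊤).lt_or_eq with d | d
      · exact (h1 _ _ (by rwa [h2])).le
      · obtain ⟨x, rfl⟩ := htop w d
        exact (h4 _).monotone (hx1' x ((h4 _).lt_iff_lt.1 hw))
    · have d := h1' _ _ hw.le
      rw [h2, top_le_iff] at d
      obtain ⟨x, rfl⟩ := htop w d
      refine (h4 _).monotone (not_lt.1 fun hc => ?_)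
      exact ((h4 _).lt_iff_lt.1 hw).not_ge (hx2' x hc)
  · rw [← cof_univ L]
    exact cU univ ⊤ ⟨x0⟩ (fun _ => mem_univ _) (fun _ _ => le_top) fun y => (hD0.false y).elim
  · rw [← cof_univ_dual L]
    exact cD univ ⊥ ⟨y0⟩ (fun _ => mem_univ _) (fun _ _ => bot_le) fun y => (hU0.false y).elim
  · have hne : (idx '' Sᶜ).Nonempty := by
      obtain ⟨b, hb⟩ := hS.ne2
      exact ⟨_, b, hb, rfl⟩
    obtain ⟨i, ⟨b, hb, hbi⟩, hmin⟩ : ∃ i ∈ idx '' Sᶜ, ∀ a ∉ S, i ≤ idx a :=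
      ⟨wellFounded_lt.min _ hne, wellFounded_lt.min_mem _ hne, fun a ha =>
        not_lt.1 (wellFounded_lt.not_lt_min (idx '' Sᶜ) ⟨a, ha, rfl⟩)⟩
    have e1 : ∀ x, up i x ∈ S := by
      by_contra hc
      have hn : {x | up i x ∉ S}.Nonempty := by
        push Not at hc
        exact hc
      obtain ⟨b', hb', hlt⟩ := hS.no_min _ (wellFounded_lt.min_mem _ hn)
      have d := h1' _ _ hlt.le
      rw [h2] at d
      rcases h7 b' i (le_antisymm d (hmin b' hb')) with ⟨x, rfl⟩ | ⟨y, rfl⟩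
      · exact wellFounded_lt.not_lt_min {x | up i x ∉ S} hb' ((h4 i).lt_iff_lt.1 hlt)
      · exact (h6 i _ _).not_gt hlt
    have e3 : ∀ a ∈ S, idx a ≤ i := by
      intro a ha
      rw [← hbi]
      refine h1' _ _ (not_lt.1 fun hc => hb (hS.lower a ha b hc.le))
    have e2 : ∀ y, dn i y ∉ S := by
      by_contra hc
      have hn : {y | dn i y ∈ S}.Nonempty := by
        push Not at hc
        exact hc
      obtain ⟨a', ha', hlt⟩ := hS.no_max _ (wellFounded_lt.min_mem _ hn)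
      have d := h1' _ _ hlt.le
      rw [h3] at d
      rcases h7 a' i (le_antisymm (e3 a' ha') d) with ⟨x, rfl⟩ | ⟨y, rfl⟩
      · exact (h6 i _ _).not_gt hlt
      · exact wellFounded_lt.not_lt_min {y | dn i y ∈ S} ha' ((h5 i).lt_iff_gt.1 hlt)
    have n1 : i ≠ ⊥ := by
      rintro rfl
      obtain ⟨a, ha⟩ := hS.ne1
      obtain ⟨y, rfl⟩ := hbot a (le_bot_iff.1 (e3 a ha))
      exact e2 y ha
    have n2 : i ≠ ⊤ := by
      rintro rfl
      obtain ⟨x, rfl⟩ := htop b hbi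
      exact hb (e1 x)
    exact ⟨i, n1, n2, cU S i (hU i n1) e1 e3 e2, cD Sᶜ i (hD i n2) e2 hmin fun x h => h (e1 x)⟩
  · obtain ⟨x1⟩ := hU i hi1
    obtain ⟨y1⟩ := hD i hi2
    let S : Set L := {a | ∃ x, a ≤ up i x}
    have e1 : ∀ x, up i x ∈ S := fun x => ⟨x, le_rfl⟩
    have e2 : ∀ y, dn i y ∉ S := fun y ⟨x, hx⟩ => (h6 i x y).not_ge hx
    have e3 : ∀ a ∈ S, idx a ≤ i := fun a ⟨x, hx⟩ => h2 i x ▸ h1' _ _ hx
    have e4 : ∀ a ∉ S, i ≤ idx a := fun a ha => not_lt.1 fun hc =>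
      ha ⟨x1, (h1 _ _ (by rwa [h2])).le⟩
    refine ⟨S, ⟨fun a ⟨x, hx⟩ b hb => ⟨x, hb.trans hx⟩, ⟨_, e1 x1⟩, ⟨_, e2 y1⟩, ?_, ?_⟩,
      cU S i ⟨x1⟩ e1 e3 e2, cD Sᶜ i ⟨y1⟩ e2 e4 fun x h => h (e1 x)⟩
    · rintro a ⟨x, hx⟩
      obtain ⟨x', hx'⟩ := exists_gt x
      exact ⟨_, e1 x', hx.trans_lt (h4 i hx')⟩
    · intro b hb
      rcases (e4 b hb).lt_or_eq with d | d
      · exact ⟨_, e2 y1, h1 _ _ (by rwa [h3])⟩
      · rcases h7 b i d.symm with ⟨x, rfl⟩ | ⟨y, rfl⟩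
        · exact absurd (e1 x) hb
        · obtain ⟨y', hy'⟩ := exists_gt y
          exact ⟨_, e2 y', h5 i hy'⟩

theorem tail_iso {κ : Cardinal.{u}} (hreg : κ.IsRegular) (ξ : κ.ord.ToType) :
    Nonempty (κ.ord.ToType ≃o Ici ξ) := by
  have hcard : #κ.ord.ToType = κ := by simp
  have key : Ordinal.type (α := Ici ξ) (· < ·) = κ.ord := by
    apply le_antisymm
    · have : Ordinal.type (α := Ici ξ) (· < ·) ≤ Ordinal.type (α := κ.ord.ToType) (· < ·) := by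
        apply Ordinal.type_le_iff'.mpr
        exact ⟨(OrderEmbedding.subtype _).ltEmbedding⟩
      simpa using this
    · rw [Cardinal.ord_le, Ordinal.card_type]
      by_contra hlt
      push Not at hlt
      have h1 : #(Iio ξ) < κ := by simpa using mk_Iio_lt ξ
      have h2 : (univ : Set κ.ord.ToType) ⊆ Ici ξ ∪ Iio ξ := by
        intro x _
        rcases le_or_gt ξ x with h | h
        · exact Or.inl h
        · exact Or.inr h
      have h3 := (Cardinal.mk_le_mk_of_subset h2).trans (Cardinal.mk_union_le _ _)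
      rw [mk_univ, hcard] at h3
      exact absurd h3 (not_le.mpr (add_lt_of_lt hreg.1 hlt h1))
  have h : Ordinal.type (α := κ.ord.ToType) (· < ·) = Ordinal.type (α := Ici ξ) (· < ·) := by
    rw [key]
    simp
  rw [Ordinal.type_eq] at h
  obtain ⟨e⟩ := h
  exact ⟨OrderIso.ofRelIsoLT e⟩

theorem cof_ord {κ : Cardinal.{u}} (hreg : κ.IsRegular) : Order.cof κ.ord.ToType = κ := by
  rw [Ordinal.cof_toType, hreg.cof_ord]

theorem nonempty_ord {κ : Cardinal.{u}} (hreg : κ.IsRegular) : Nonempty κ.ord.ToType := by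
  rw [← Order.cof_ne_zero_iff, cof_ord hreg]
  exact hreg.ne_zero

theorem empty_ord : IsEmpty (0 : Cardinal.{u}).ord.ToType := by
  rw [Cardinal.ord_zero]
  infer_instance

theorem nomax_ord {κ : Cardinal.{u}} (h : κ.IsRegular ∨ κ = 0) : NoMaxOrder κ.ord.ToType := by
  rcases h with h | rfl
  · exact Cardinal.noMaxOrder h.1
  · exact ⟨fun a => (empty_ord.false a).elim⟩

theorem realizable (X : Set Ordinal.{u}) (hX : BddAbove X) (hreg : ∀ x ∈ X, (ℵ_ x).IsRegular)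
    (C : Set (Ordinal.{u} × Ordinal.{u})) (hC : C ⊆ X ×ˢ X) : Realizable X C := by
  obtain ⟨γ, hγ⟩ := hX
  have hκ : (Order.succ (ℵ_ γ)).IsRegular := isRegular_succ (aleph0_le_aleph _)
  set κ : Cardinal.{u} := Order.succ (ℵ_ γ) with hκd
  have hlt : ∀ x ∈ X, ℵ_ x < κ := fun x hx =>
    (aleph_le_aleph.2 (hγ hx)).trans_lt (Order.lt_succ _)
  have : Small.{u} C := small_of_injective (β := Iic γ × Iic γ)
    (f := fun c => (⟨c.1.1, hγ (hC c.2).1⟩, ⟨c.1.2, hγ (hC c.2).2⟩)) (by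
      rintro ⟨⟨a, b⟩, h⟩ ⟨⟨a', b'⟩, h'⟩ e
      simpa using e)
  obtain ⟨_, _⟩ := exists_wellFoundedLT (Shrink.{u} C)
  let c : Shrink.{u} C → C := (equivShrink C).symm
  let u : WithBot (WithTop (Shrink.{u} C)) → Cardinal.{u} := fun i =>
    WithBot.recBotCoe 0 (fun j => WithTop.recTopCoe κ (fun k => ℵ_ (c k).1.1) j) i
  let d : WithBot (WithTop (Shrink.{u} C)) → Cardinal.{u} := fun i =>
    WithBot.recBotCoe κ (fun j => WithTop.recTopCoe 0 (fun k => ℵ_ (c k).1.2) j) i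
  have cases3 : ∀ i : WithBot (WithTop (Shrink.{u} C)), i = ⊥ ∨ i = ⊤ ∨
      ∃ k : Shrink.{u} C, i = ((k : WithTop (Shrink.{u} C)) : WithBot (WithTop (Shrink.{u} C))) := by
    intro i
    induction i using WithBot.recBotCoe with
    | bot => exact Or.inl rfl
    | coe j =>
      induction j using WithTop.recTopCoe with
      | top => exact Or.inr (Or.inl rfl)
      | coe k => exact Or.inr (Or.inr ⟨k, rfl⟩)
  have hu : ∀ i, i ≠ ⊥ → (u i).IsRegular := by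
    intro i hi
    rcases cases3 i with rfl | rfl | ⟨k, rfl⟩
    · exact absurd rfl hi
    · exact hκ
    · exact hreg _ (hC (c k).2).1
  have hd : ∀ i, i ≠ ⊤ → (d i).IsRegular := by
    intro i hi
    rcases cases3 i with rfl | rfl | ⟨k, rfl⟩
    · exact hκ
    · exact absurd rfl hi
    · exact hreg _ (hC (c k).2).2
  have : ∀ i, NoMaxOrder (u i).ord.ToType := fun i => nomax_ord (by
    by_cases h : i = ⊥
    · exact Or.inr (by rw [h]; rfl)
    · exact Or.inl (hu i h))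
  have : ∀ i, NoMaxOrder (d i).ord.ToType := fun i => nomax_ord (by
    by_cases h : i = ⊤
    · exact Or.inr (by rw [h]; rfl)
    · exact Or.inl (hd i h))
  obtain ⟨L, _, _, _, ⟨o, o1, o2, h1, h1', h2, h2'⟩, hL1, hL2, hgap, hgap'⟩ :=
    exists_letters (fun i => (u i).ord.ToType) (fun i => (d i).ord.ToType)
      (fun i hi => nonempty_ord (hu i hi)) (fun i hi => nonempty_ord (hd i hi))
      empty_ord empty_ord bot_ne_top
  rw [cof_ord (hu ⊤ top_ne_bot)] at hL1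
  rw [cof_ord (hd ⊥ bot_ne_top)] at hL2
  have := nonempty_ord hκ
  have := nomax_ord (Or.inl hκ)
  refine ⟨TT κ.ord.ToType o, inferInstance, ?_, TT.dense,
    TT.twoHomogeneous (tail_iso hκ) h1 h1' h2 h2', ?_⟩
  · let ε := Classical.arbitrary κ.ord.ToType
    let z : TT κ.ord.ToType o := TT.mk (fun _ => o) ⟨ε, fun _ _ => rfl⟩
    exact ⟨_, _, (ext1_mono z ε h1).ne⟩
  · ext ⟨α, β⟩
    constructor
    · rintro ⟨⟨A, B, hcut, hA, hB⟩, hα, hβ⟩
      rcases cut_cases hcut with h | h | h | ⟨S, hS, e1, e2⟩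
      · rw [cof_ord hκ, hA] at h
        exact absurd (hlt _ hα) h.not_gt
      · rw [hA, hL1] at h
        exact absurd h (hlt _ hα).ne
      · rw [hB, hL2] at h
        exact absurd h (hlt _ hβ).ne
      · obtain ⟨i, n1, n2, e3, e4⟩ := hgap S hS
        rw [cof_ord (hu i n1), ← e1, hA] at e3
        rw [cof_ord (hd i n2), ← e2, hB] at e4
        rcases cases3 i with rfl | rfl | ⟨k, rfl⟩
        · exact absurd rfl n1
        · exact absurd rfl n2
        · have e5 : α = (c k).1.1 := aleph.injective e3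
          have e6 : β = (c k).1.2 := aleph.injective e4
          rw [e5, e6]
          exact (c k).2
    · intro h
      refine ⟨?_, hC h⟩
      obtain ⟨k, hk⟩ := (equivShrink C).symm.surjective ⟨_, h⟩
      have n1 : ((k : WithTop (Shrink.{u} C)) : WithBot (WithTop (Shrink.{u} C))) ≠ ⊥ := WithBot.coe_ne_bot
      have n2 : ((k : WithTop (Shrink.{u} C)) : WithBot (WithTop (Shrink.{u} C))) ≠ ⊤ := fun e =>
        WithTop.coe_ne_top (WithBot.coe_injective e)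
      obtain ⟨S, hS, e1, e2⟩ := hgap' _ n1 n2
      rw [cof_ord (hu _ n1)] at e1
      rw [cof_ord (hd _ n2)] at e2
      obtain ⟨A, B, hcut, e3, e4⟩ := cut_of_gap (Λ := κ.ord.ToType) (o := o) hS
      refine ⟨A, B, hcut, ?_, ?_⟩
      · rw [e3, e1]
        change ℵ_ (c k).1.1 = _
        simp only [c, hk]
      · rw [e4, e2]
        change ℵ_ (c k).1.2 = _
        simp only [c, hk]

end Pool.Agent.H465Z.Cut
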