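import Mathlib

/-! Definitions: cuts of a chain, their characters, 2-homogeneous chains, realizable sets. -/

namespace Pool.Agent.H465Z.Cut

open Cardinal

universe u

/-- `(A, B)` is a cut of the chain `T`: both parts are nonempty, `A` lies below `B`, `A` has no
largest element, `B` has no smallest element, and `T` is `A ∪ B` or `A ∪ {r} ∪ B` for a single
element `r` lying between `A` and `B`. -/
structure IsCut {T : Type u} [LinearOrder T] (A B : Set T) : Prop where
  left_nonempty : A.Nonempty
  right_nonempty : B.Nonempty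
  lt : ∀ a ∈ A, ∀ b ∈ B, a < b
  no_max : ∀ a ∈ A, ∃ a' ∈ A, a < a'
  no_min : ∀ b ∈ B, ∃ b' ∈ B, b' < b
  cover : A ∪ B = Set.univ ∨
    ∃ r : T, (∀ a ∈ A, a < r) ∧ (∀ b ∈ B, r < b) ∧ A ∪ {r} ∪ B = Set.univ

/-- The set of characters of all cuts of `T`: the pairs `(α, β)` of ordinals such that some cut
`(A, B)` of `T` has cofinality of `A` equal to `ℵ_ α` and coinitiality of `B` equal to `ℵ_ β`. -/
def cutCharacters (T : Type u) [LinearOrder T] : Set (Ordinal.{u} × Ordinal.{u}) :=
  {p | ∃ A B : Set T, IsCut A B ∧ Order.cof A = ℵ_ p.1 ∧ Order.cof (OrderDual B) = ℵ_ p.2}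

/-- Any two nondegenerate closed bounded intervals of `T` are order-isomorphic. -/
def TwoHomogeneous (T : Type u) [LinearOrder T] : Prop :=
  ∀ a b c d : T, a < b → c < d → Nonempty (Set.Icc a b ≃o Set.Icc c d)

/-- `C` is realizable with respect to `X`: some 2-homogeneous dense chain `T` with at least two
elements satisfies `C(T) ∩ X² = C`. -/
def Realizable (X : Set Ordinal.{u}) (C : Set (Ordinal.{u} × Ordinal.{u})) : Prop :=
  ∃ (T : Type u) (_ : LinearOrder T), Nontrivial T ∧ DenselyOrdered T ∧ TwoHomogeneous T ∧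
    cutCharacters T ∩ X ×ˢ X = C

end Pool.Agent.H465Z.Cut
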