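import Mathlib

/-! Definitions: the free 2-step nilpotent Lie group of rank 3, its left-invariant Riemannian
and Carnot distances, Heisenberg groups, quasiisometries, coarse permutation of cosets. -/

namespace Pool.Agent.H465Z.QI

/-- Euclidean 3-space -/
abbrev V : Type := EuclideanSpace ℝ (Fin 3)

/-- the cross product on Euclidean 3-space -/
noncomputable def cr (a b : V) : V := WithLp.toLp 2 (crossProduct a.ofLp b.ofLp)

/-- The free 2-step nilpotent Lie group of rank 3 in exponential coordinates: its Lie algebra is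
`V₁ ⊕ V₂ = ℝ³ ⊕ ℝ³` with bracket `[(a, p), (b, q)] = (0, a × b)`. -/
@[ext] structure N : Type where
  /-- first layer coordinate -/
  h : V
  /-- second layer coordinate -/
  v : V

/-- the group law `x * y = x + y + [x, y] / 2` -/
noncomputable instance : Group N where
  mul x y := ⟨x.h + y.h, x.v + y.v + (1 / 2 : ℝ) • cr x.h y.h⟩
  one := ⟨0, 0⟩
  inv x := ⟨-x.h, -x.v⟩
  mul_assoc x y z := by
    refine N.ext (add_assoc _ _ _) ?_
    change x.v + y.v + (1 / 2 : ℝ) • cr x.h y.h + z.v + (1 / 2 : ℝ) • cr (x.h + y.h) z.h =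
      x.v + (y.v + z.v + (1 / 2 : ℝ) • cr y.h z.h) + (1 / 2 : ℝ) • cr x.h (y.h + z.h)
    ext i
    fin_cases i <;> simp [cr, cross_apply] <;> ring
  one_mul x := by
    refine N.ext (zero_add _) ?_
    change 0 + x.v + (1 / 2 : ℝ) • cr 0 x.h = x.v
    simp [cr]
  mul_one x := by
    refine N.ext (add_zero _) ?_
    change x.v + 0 + (1 / 2 : ℝ) • cr x.h 0 = x.v
    simp [cr]
  inv_mul_cancel x := by
    refine N.ext (neg_add_cancel _) ?_
    change -x.v + x.v + (1 / 2 : ℝ) • cr (-x.h) x.h = 0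
    simp [cr]

/-- `γ` is a `C¹` curve on `[0, 1]` whose two coordinates have derivatives `a` and `b` -/
def IsC1 (γ : ℝ → N) (a b : ℝ → V) : Prop :=
  (∀ t ∈ Set.Icc (0 : ℝ) 1,
    HasDerivAt (fun s => (γ s).h) (a t) t ∧ HasDerivAt (fun s => (γ s).v) (b t) t) ∧
  ContinuousOn a (Set.Icc (0 : ℝ) 1) ∧ ContinuousOn b (Set.Icc (0 : ℝ) 1)

/-- The distance of the left-invariant Riemannian metric that is Euclidean at the identity. The
left translate to the identity of the tangent vector `(a, b)` at `x` is `(a, b - x.h × a / 2)`. -/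
noncomputable def dRiem (x y : N) : ℝ :=
  sInf {L : ℝ | ∃ (γ : ℝ → N) (a b : ℝ → V), IsC1 γ a b ∧ γ 0 = x ∧ γ 1 = y ∧
    L = ∫ t in (0 : ℝ)..1, √(‖a t‖ ^ 2 + ‖b t - (1 / 2 : ℝ) • cr (γ t).h (a t)‖ ^ 2)}

/-- The Carnot-Caratheodory distance for the Euclidean inner product on the first layer: infimum
of the lengths of horizontal curves. -/
noncomputable def dCarnot (x y : N) : ℝ :=
  sInf {L : ℝ | ∃ (γ : ℝ → N) (a b : ℝ → V), IsC1 γ a b ∧
    (∀ t ∈ Set.Icc (0 : ℝ) 1, b t = (1 / 2 : ℝ) • cr (γ t).h (a t)) ∧ γ 0 = x ∧ γ 1 = y ∧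
    L = ∫ t in (0 : ℝ)..1, ‖a t‖}

/-- quasiisometries for a distance `d` -/
def IsQuasiIsometry (d : N → N → ℝ) (f : N → N) : Prop :=
  ∃ L C : ℝ, 1 ≤ L ∧ 0 ≤ C ∧
    (∀ x y, L⁻¹ * d x y - C ≤ d (f x) (f y) ∧ d (f x) (f y) ≤ L * d x y + C) ∧
    ∀ y, ∃ x, d y (f x) ≤ C

/-- `f` coarsely permutes the left cosets of `H`: for some `D`, for every `g` there is `k` such
that `f (g H)` and `k H` lie in the `D`-neighbourhood of each other. -/
def CoarselyPermutes (d : N → N → ℝ) (f : N → N) (H : Subgroup N) : Prop :=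
  ∃ D : ℝ, ∀ g : N, ∃ k : N,
    (∀ u ∈ H, ∃ w ∈ H, d (f (g * u)) (k * w) ≤ D) ∧
    (∀ w ∈ H, ∃ u ∈ H, d (f (g * u)) (k * w) ≤ D)

/-- the real Heisenberg group of dimension `2 n + 1` in exponential coordinates -/
@[ext] structure Heis (n : ℕ) : Type where
  /-- coordinates along `X₁, …, Xₙ` -/
  x : Fin n → ℝ
  /-- coordinates along `Y₁, …, Yₙ` -/
  y : Fin n → ℝ
  /-- coordinate along the centre -/
  z : ℝ

/-- the group law given by the brackets `[Xₖ, Yₖ] = Z` -/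
noncomputable instance (n : ℕ) : Group (Heis n) where
  mul p q := ⟨p.x + q.x, p.y + q.y, p.z + q.z + (1 / 2 : ℝ) * (p.x ⬝ᵥ q.y - p.y ⬝ᵥ q.x)⟩
  one := ⟨0, 0, 0⟩
  inv p := ⟨-p.x, -p.y, -p.z⟩
  mul_assoc p q r := by
    refine Heis.ext (add_assoc _ _ _) (add_assoc _ _ _) ?_
    change p.z + q.z + (1 / 2 : ℝ) * (p.x ⬝ᵥ q.y - p.y ⬝ᵥ q.x) + r.z +
        (1 / 2 : ℝ) * ((p.x + q.x) ⬝ᵥ r.y - (p.y + q.y) ⬝ᵥ r.x) =
      p.z + (q.z + r.z + (1 / 2 : ℝ) * (q.x ⬝ᵥ r.y - q.y ⬝ᵥ r.x)) +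
        (1 / 2 : ℝ) * (p.x ⬝ᵥ (q.y + r.y) - p.y ⬝ᵥ (q.x + r.x))
    simp only [add_dotProduct, dotProduct_add]
    ring
  one_mul p := by
    refine Heis.ext (zero_add _) (zero_add _) ?_
    change 0 + p.z + (1 / 2 : ℝ) * ((0 : Fin n → ℝ) ⬝ᵥ p.y - (0 : Fin n → ℝ) ⬝ᵥ p.x) = p.z
    simp
  mul_one p := by
    refine Heis.ext (add_zero _) (add_zero _) ?_
    change p.z + 0 + (1 / 2 : ℝ) * (p.x ⬝ᵥ (0 : Fin n → ℝ) - p.y ⬝ᵥ (0 : Fin n → ℝ)) = p.z
    simp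
  inv_mul_cancel p := by
    refine Heis.ext (neg_add_cancel _) (neg_add_cancel _) ?_
    change -p.z + p.z + (1 / 2 : ℝ) * ((-p.x) ⬝ᵥ p.y - (-p.y) ⬝ᵥ p.x) = 0
    simp [dotProduct_comm]

end Pool.Agent.H465Z.QI
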