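import Pool.Agent.H465Z.QIDefs

open Set
open scoped commutatorElement

namespace Pool.Agent.H465Z.QI

lemma cr_apply0 (a b : V) : cr a b 0 = a 1 * b 2 - a 2 * b 1 := by simp [cr, cross_apply]
lemma cr_apply1 (a b : V) : cr a b 1 = a 2 * b 0 - a 0 * b 2 := by simp [cr, cross_apply]
lemma cr_apply2 (a b : V) : cr a b 2 = a 0 * b 1 - a 1 * b 0 := by simp [cr, cross_apply]

lemma V_ext {a b : V} (h0 : a 0 = b 0) (h1 : a 1 = b 1) (h2 : a 2 = b 2) : a = b := by
  ext i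
  fin_cases i
  · exact h0
  · exact h1
  · exact h2

lemma normsq (a : V) : ‖a‖ ^ 2 = a 0 ^ 2 + a 1 ^ 2 + a 2 ^ 2 := by
  rw [EuclideanSpace.norm_sq_eq, Fin.sum_univ_three]
  simp

lemma norm_cr_le (a b : V) : ‖cr a b‖ ≤ ‖a‖ * ‖b‖ := by
  have h : ‖cr a b‖ ^ 2 ≤ (‖a‖ * ‖b‖) ^ 2 := by
    rw [mul_pow, normsq, normsq, normsq, cr_apply0, cr_apply1, cr_apply2]
    nlinarith [sq_nonneg (a 0 * b 0 + a 1 * b 1 + a 2 * b 2)]
  exact (pow_le_pow_iff_left₀ (norm_nonneg _) (by positivity) two_ne_zero).1 h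

noncomputable def crL : V →ₗ[ℝ] V →ₗ[ℝ] V :=
  LinearMap.mk₂ ℝ cr
    (fun p p' q => by simp [cr])
    (fun c p q => by simp [cr])
    (fun p q q' => by simp [cr])
    (fun c p q => by simp [cr])

noncomputable def B : V →L[ℝ] V →L[ℝ] V :=
  crL.mkContinuous₂ 1 (fun p q => by rw [one_mul]; exact norm_cr_le p q)

lemma cr_eq (p q : V) : cr p q = B p q := rfl

lemma B_self (p : V) : B p p = 0 := by
  rw [← cr_eq]
  simp [cr]

lemma B_anti (p q : V) : B q p = - B p q := by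
  rw [← cr_eq, ← cr_eq]
  refine V_ext ?_ ?_ ?_ <;> simp [cr_apply0, cr_apply1, cr_apply2] <;> ring

lemma norm_B_le (p q : V) : ‖B p q‖ ≤ ‖p‖ * ‖q‖ := norm_cr_le p q

@[simp] lemma mul_h (x y : N) : (x * y).h = x.h + y.h := rfl
@[simp] lemma mul_v (x y : N) : (x * y).v = x.v + y.v + (1 / 2 : ℝ) • B x.h y.h := rfl
@[simp] lemma inv_h (x : N) : (x⁻¹).h = -x.h := rfl
@[simp] lemma inv_v (x : N) : (x⁻¹).v = -x.v := rfl
@[simp] lemma one_h : (1 : N).h = 0 := rfl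
@[simp] lemma one_v : (1 : N).v = 0 := rfl

lemma exists_perp (η : V) : ∃ w : V, ‖w‖ = 1 ∧ w 0 * η 0 + w 1 * η 1 + w 2 * η 2 = 0 := by
  have key : ∃ w : V, w ≠ 0 ∧ w 0 * η 0 + w 1 * η 1 + w 2 * η 2 = 0 := by
    by_cases h : η 0 = 0
    · refine ⟨!₂[1, 0, 0], ?_, by simp [h]⟩
      intro h0
      have := congrArg (fun v : V => v 0) h0
      simp at this
    · refine ⟨!₂[η 1, -η 0, 0], ?_, by simp; ring⟩
      intro h0
      have := congrArg (fun v : V => v 1) h0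
      simp [h] at this
  obtain ⟨w, hw, h⟩ := key
  have hn : ‖w‖ ≠ 0 := norm_ne_zero_iff.2 hw
  refine ⟨‖w‖⁻¹ • w, by rw [norm_smul, norm_inv, norm_norm, inv_mul_cancel₀ hn], ?_⟩
  simp only [PiLp.smul_apply, smul_eq_mul]
  have : ‖w‖⁻¹ * w 0 * η 0 + ‖w‖⁻¹ * w 1 * η 1 + ‖w‖⁻¹ * w 2 * η 2 =
      ‖w‖⁻¹ * (w 0 * η 0 + w 1 * η 1 + w 2 * η 2) := by ring
  rw [this, h, mul_zero]

lemma B_surj (η : V) : ∃ u v : V, B u v = η ∧ ‖u‖ ≤ √‖η‖ ∧ ‖v‖ ≤ √‖η‖ := by
  by_cases h0 : η = 0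
  · exact ⟨0, 0, by simp [h0], by simp, by simp⟩
  have hs : 0 < √‖η‖ := Real.sqrt_pos.2 (norm_pos_iff.2 h0)
  set s := √‖η‖ with hsd
  have hss : s * s = ‖η‖ := Real.mul_self_sqrt (norm_nonneg _)
  obtain ⟨w, hw, hp⟩ := exists_perp η
  have hw2 : w 0 ^ 2 + w 1 ^ 2 + w 2 ^ 2 = 1 := by rw [← normsq, hw]; norm_num
  refine ⟨s • w, s⁻¹ • B η w, ?_, ?_, ?_⟩
  · simp only [map_smul, smul_apply, smul_smul, inv_mul_cancel₀ hs.ne',
      one_smul]
    rw [← cr_eq, ← cr_eq]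
    refine V_ext ?_ ?_ ?_ <;> simp only [cr_apply0, cr_apply1, cr_apply2]
    · linear_combination η 0 * hw2 - w 0 * hp
    · linear_combination η 1 * hw2 - w 1 * hp
    · linear_combination η 2 * hw2 - w 2 * hp
  · rw [norm_smul, hw, mul_one, Real.norm_of_nonneg hs.le]
  · rw [norm_smul, norm_inv, Real.norm_of_nonneg hs.le, inv_mul_le_iff₀ hs, hss]
    simpa [hw] using norm_B_le η w

lemma half_norm : ‖(1 / 2 : ℝ)‖ = 1 / 2 := by norm_num

/-- the homogeneous quasi-distance -/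
noncomputable def δ (x y : N) : ℝ := ‖y.h - x.h‖ + √‖y.v - x.v - (1 / 2 : ℝ) • B x.h y.h‖

lemma δ_nonneg (x y : N) : 0 ≤ δ x y := by
  unfold δ
  positivity

lemma δ_symm (x y : N) : δ x y = δ y x := by
  unfold δ
  rw [norm_sub_rev, B_anti x.h y.h, ← norm_neg (x.v - y.v - _)]
  congr 3
  simp only [smul_neg]
  abel

lemma δ_self (x : N) : δ x x = 0 := by
  simp [δ, B_self]

/-- lower bound for general curves: `ℓ` bounds the horizontal length, `m` the vertical length -/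
lemma lower {γ : ℝ → N} {a b : ℝ → V} (h : IsC1 γ a b) {ℓ m : ℝ}
    (hℓ : ∫ t in (0 : ℝ)..1, ‖a t‖ ≤ ℓ)
    (hm : ∫ t in (0 : ℝ)..1, ‖b t - (1 / 2 : ℝ) • B (γ t).h (a t)‖ ≤ m) :
    δ (γ 0) (γ 1) ≤ ℓ + √(ℓ * ℓ + m) := by
  obtain ⟨h1, ha, hb⟩ := h
  have hp : ∀ t ∈ Icc (0 : ℝ) 1, HasDerivAt (fun t => (γ t).h) (a t) t := fun t ht => (h1 t ht).1
  have hz : ∀ t ∈ Icc (0 : ℝ) 1, HasDerivAt (fun t => (γ t).v) (b t) t := fun t ht => (h1 t ht).2
  have hℓ0 : 0 ≤ ℓ :=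
    (intervalIntegral.integral_nonneg zero_le_one fun _ _ => norm_nonneg _).trans hℓ
  have hint : IntervalIntegrable (fun t => ‖a t‖) MeasureTheory.volume 0 1 :=
    (ha.norm.mono (by rw [uIcc_of_le zero_le_one])).intervalIntegrable
  have hdisp : ∀ t ∈ Icc (0 : ℝ) 1, ‖(γ t).h - (γ 0).h‖ ≤ ℓ := by
    intro t ht
    have hsub : uIcc 0 t ⊆ Icc (0 : ℝ) 1 := by
      rw [uIcc_of_le ht.1]
      exact Icc_subset_Icc_right ht.2
    rw [← intervalIntegral.integral_eq_sub_of_hasDerivAt (fun s hs => hp s (hsub hs))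
      (ha.mono hsub).intervalIntegrable]
    refine (intervalIntegral.norm_integral_le_integral_norm ht.1).trans (le_trans ?_ hℓ)
    exact intervalIntegral.integral_mono_interval le_rfl ht.1 ht.2
      (Filter.Eventually.of_forall fun _ => norm_nonneg _) hint
  have hpc : ContinuousOn (fun t => (γ t).h) (Icc 0 1) :=
    fun t ht => (hp t ht).continuousAt.continuousWithinAt
  have hζ : ∀ t ∈ uIcc (0 : ℝ) 1,
      HasDerivAt (fun t => (γ t).v - (1 / 2 : ℝ) • B (γ 0).h (γ t).h)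
        ((b t - (1 / 2 : ℝ) • B (γ t).h (a t)) +
          (1 / 2 : ℝ) • B ((γ t).h - (γ 0).h) (a t)) t := by
    intro t ht
    rw [uIcc_of_le zero_le_one] at ht
    have := (hz t ht).sub
      (((B (γ 0).h).hasFDerivAt.comp_hasDerivAt t (hp t ht)).const_smul (1 / 2 : ℝ))
    refine this.congr_deriv ?_
    rw [map_sub, sub_apply, smul_sub]
    abel
  have hc1 : ContinuousOn (fun t => b t - (1 / 2 : ℝ) • B (γ t).h (a t)) (Icc (0 : ℝ) 1) :=
    hb.sub (((B.continuous.comp_continuousOn hpc).clm_apply ha).const_smul (1 / 2 : ℝ))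
  have hc2 : ContinuousOn (fun t => (1 / 2 : ℝ) • B ((γ t).h - (γ 0).h) (a t))
      (Icc (0 : ℝ) 1) :=
    ((B.continuous.comp_continuousOn
      (hpc.sub (continuousOn_const (c := (γ 0).h)))).clm_apply ha).const_smul (1 / 2 : ℝ)
  have hint2 : IntervalIntegrable (fun t => ‖b t - (1 / 2 : ℝ) • B (γ t).h (a t)‖)
      MeasureTheory.volume 0 1 :=
    (hc1.norm.mono (by rw [uIcc_of_le zero_le_one])).intervalIntegrable
  have hvert : ‖(γ 1).v - (γ 0).v - (1 / 2 : ℝ) • B (γ 0).h (γ 1).h‖ ≤ ℓ * ℓ + m := by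
    have e1 := intervalIntegral.integral_eq_sub_of_hasDerivAt hζ
      (((hc1.add hc2).mono (by rw [uIcc_of_le zero_le_one])).intervalIntegrable)
    have e2 : (γ 1).v - (γ 0).v - (1 / 2 : ℝ) • B (γ 0).h (γ 1).h =
        (γ 1).v - (1 / 2 : ℝ) • B (γ 0).h (γ 1).h -
          ((γ 0).v - (1 / 2 : ℝ) • B (γ 0).h (γ 0).h) := by
      rw [B_self, smul_zero]
      abel
    rw [e2, ← e1]
    refine (intervalIntegral.norm_integral_le_of_norm_le zero_le_one
      (g := fun t => ℓ * ‖a t‖ + ‖b t - (1 / 2 : ℝ) • B (γ t).h (a t)‖)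
      (Filter.Eventually.of_forall fun t ht => ?_)
      ((hint.const_mul _).add hint2)).trans ?_
    · refine (norm_add_le _ _).trans ?_
      rw [norm_smul]
      have a1 := norm_B_le ((γ t).h - (γ 0).h) (a t)
      have a2 := hdisp t ⟨ht.1.le, ht.2⟩
      have a3 : ‖(γ t).h - (γ 0).h‖ * ‖a t‖ ≤ ℓ * ‖a t‖ := by gcongr
      have a4 : 0 ≤ ℓ * ‖a t‖ := by positivity
      rw [half_norm]
      linarith
    · rw [intervalIntegral.integral_add (hint.const_mul _) hint2,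
        intervalIntegral.integral_const_mul]
      have := mul_le_mul_of_nonneg_left hℓ hℓ0
      linarith
  have h5 := Real.sqrt_le_sqrt hvert
  have h6 := hdisp 1 ⟨zero_le_one, le_rfl⟩
  unfold δ
  linarith

lemma upper (x y : N) : ∃ (γ : ℝ → N) (a b : ℝ → V), IsC1 γ a b ∧
    (∀ t, b t = (1 / 2 : ℝ) • cr (γ t).h (a t)) ∧ γ 0 = x ∧ γ 1 = y ∧
    ∫ t in (0 : ℝ)..1, ‖a t‖ ≤ 1000 * δ x y := by
  set a := y.h - x.h with ha
  set ζ := y.v - x.v - (1 / 2 : ℝ) • B x.h y.h with hζ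
  obtain ⟨u, v, huv, hu, hv⟩ := B_surj ((-70 : ℝ) • ζ)
  have hs : √‖(-70 : ℝ) • ζ‖ ≤ 9 * √‖ζ‖ := by
    rw [Real.sqrt_le_iff]
    refine ⟨by positivity, ?_⟩
    rw [norm_smul, mul_pow, Real.sq_sqrt (norm_nonneg _)]
    have := norm_nonneg ζ
    have h70 : ‖(-70 : ℝ)‖ = 70 := by norm_num
    rw [h70]
    linarith
  let r1 : ℝ → ℝ := fun t => t - 3 * t ^ 2 + 2 * t ^ 3
  let r2 : ℝ → ℝ := fun t => t - 6 * t ^ 2 + 10 * t ^ 3 - 5 * t ^ 4
  let d1 : ℝ → ℝ := fun t => 1 - 6 * t + 6 * t ^ 2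
  let d2 : ℝ → ℝ := fun t => 1 - 12 * t + 30 * t ^ 2 - 20 * t ^ 3
  let R1 : ℝ → ℝ := fun t => - t ^ 3 + t ^ 4
  let R2 : ℝ → ℝ := fun t => -2 * t ^ 3 + 5 * t ^ 4 - 3 * t ^ 5
  let R3 : ℝ → ℝ := fun t => - t ^ 3 + 4 * t ^ 4 - 33 / 5 * t ^ 5 + 5 * t ^ 6 - 10 / 7 * t ^ 7
  have P : ∀ (k : ℕ) (t : ℝ), HasDerivAt (fun t : ℝ => t ^ k) (k * t ^ (k - 1)) t :=
    fun k t => hasDerivAt_pow k t
  have hr1 : ∀ t, HasDerivAt r1 (d1 t) t := fun t => by
    refine HasDerivAt.congr_deriv (((hasDerivAt_id t).sub ((P 2 t).const_mul 3)).add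
      ((P 3 t).const_mul 2)) ?_
    simp only [d1]
    norm_num
    ring
  have hr2 : ∀ t, HasDerivAt r2 (d2 t) t := fun t => by
    refine HasDerivAt.congr_deriv ((((hasDerivAt_id t).sub ((P 2 t).const_mul 6)).add
      ((P 3 t).const_mul 10)).sub ((P 4 t).const_mul 5)) ?_
    simp only [d2]
    norm_num
    ring
  have hR1 : ∀ t, HasDerivAt R1 (t * d1 t - r1 t) t := fun t => by
    refine HasDerivAt.congr_deriv ((P 3 t).neg.add (P 4 t)) ?_
    simp only [d1, r1]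
    norm_num
    ring
  have hR2 : ∀ t, HasDerivAt R2 (t * d2 t - r2 t) t := fun t => by
    refine HasDerivAt.congr_deriv ((((P 3 t).const_mul (-2)).add ((P 4 t).const_mul 5)).sub
      ((P 5 t).const_mul 3)) ?_
    simp only [d2, r2]
    norm_num
    ring
  have hR3 : ∀ t, HasDerivAt R3 (r1 t * d2 t - r2 t * d1 t) t := fun t => by
    refine HasDerivAt.congr_deriv (((((P 3 t).neg.add ((P 4 t).const_mul 4)).sub
      ((P 5 t).const_mul (33 / 5))).add
      ((P 6 t).const_mul 5)).sub ((P 7 t).const_mul (10 / 7))) ?_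
    simp only [d1, d2, r1, r2]
    norm_num
    ring
  let q : ℝ → V := fun t => t • a + r1 t • u + r2 t • v
  let q' : ℝ → V := fun t => a + d1 t • u + d2 t • v
  have hq : ∀ t, HasDerivAt q (q' t) t := fun t => by
    refine HasDerivAt.congr_deriv ((((hasDerivAt_id t).smul_const a).add
      ((hr1 t).smul_const u)).add ((hr2 t).smul_const v)) ?_
    simp [q']
  let z : ℝ → V := fun t => x.v + (1 / 2 : ℝ) • (B x.h (q t) +
    (R1 t • B a u + R2 t • B a v + R3 t • B u v))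
  let z' : ℝ → V := fun t => (1 / 2 : ℝ) • B (x.h + q t) (q' t)
  have hz : ∀ t, HasDerivAt z (z' t) t := fun t => by
    have e1 := (B x.h).hasFDerivAt.comp_hasDerivAt t (hq t)
    have e2 := (((hR1 t).smul_const (B a u)).add ((hR2 t).smul_const (B a v))).add
      ((hR3 t).smul_const (B u v))
    refine HasDerivAt.congr_deriv (((e1.add e2).const_smul (1 / 2 : ℝ)).const_add x.v) ?_
    simp only [z', q, q', map_add, map_smul, add_apply,
      smul_apply, B_self, B_anti a u, B_anti a v, B_anti u v]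
    module
  have hqc : Continuous q := continuous_iff_continuousAt.2 fun t => (hq t).continuousAt
  have hq'c : Continuous q' := by
    simp only [q', d1, d2]
    fun_prop
  refine ⟨fun t => ⟨x.h + q t, z t⟩, q', z', ⟨fun t _ => ⟨?_, ?_⟩, hq'c.continuousOn, ?_⟩,
    fun t => rfl, ?_, ?_, ?_⟩
  · exact (hq t).const_add x.h
  · exact hz t
  · exact (((B.continuous.comp (continuous_const.add hqc)).clm_apply hq'c).const_smul
      (1 / 2 : ℝ)).continuousOn
  · refine N.ext ?_ ?_ <;> simp [q, z, r1, r2, R1, R2, R3]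
  · have e1 : q 1 = a := by
      simp only [q, r1, r2]
      norm_num
    have e2 : B x.h a = B x.h y.h := by rw [ha, map_sub, B_self, sub_zero]
    refine N.ext ?_ ?_
    · simp [e1, ha]
    · simp only [z, e1, e2, huv, R1, R2, R3, hζ]
      module
  · have hb : ∀ t ∈ Icc (0 : ℝ) 1, ‖q' t‖ ≤ 1000 * δ x y := by
      intro t ht
      have t0 := ht.1
      have t1 := ht.2
      have t2 : t ^ 2 ≤ 1 := pow_le_one₀ t0 t1
      have t3 : t ^ 3 ≤ 1 := pow_le_one₀ t0 t1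
      have t2' : 0 ≤ t ^ 2 := by positivity
      have t3' : 0 ≤ t ^ 3 := by positivity
      have b1 : |d1 t| ≤ 13 := by
        simp only [d1]
        rw [abs_le]
        constructor <;> linarith
      have b2 : |d2 t| ≤ 63 := by
        simp only [d2]
        rw [abs_le]
        constructor <;> linarith
      have c1 : ‖d1 t • u‖ ≤ 13 * (9 * √‖ζ‖) := by
        rw [norm_smul, Real.norm_eq_abs]
        exact mul_le_mul b1 (hu.trans hs) (norm_nonneg _) (by norm_num)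
      have c2 : ‖d2 t • v‖ ≤ 63 * (9 * √‖ζ‖) := by
        rw [norm_smul, Real.norm_eq_abs]
        exact mul_le_mul b2 (hv.trans hs) (norm_nonneg _) (by norm_num)
      have c3 : ‖q' t‖ ≤ ‖a‖ + ‖d1 t • u‖ + ‖d2 t • v‖ := norm_add₃_le
      have c4 : δ x y = ‖a‖ + √‖ζ‖ := rfl
      have c5 := norm_nonneg a
      have c6 := Real.sqrt_nonneg ‖ζ‖
      linarith
    have := intervalIntegral.integral_mono_on (μ := MeasureTheory.volume) zero_le_one
      (hq'c.norm.intervalIntegrable 0 1) (continuous_const.intervalIntegrable 0 1) hb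
    simpa using this

/-- a distance comparable on the large scale to the homogeneous quasi-distance -/
def Comp (d : N → N → ℝ) : Prop :=
  ∀ x y, d x y ≤ 1000 * δ x y ∧ δ x y ≤ 2 * d x y + 1

lemma comp_carnot : Comp dCarnot := by
  intro x y
  obtain ⟨γ, a, b, h1, h2, h3, h4, h5⟩ := upper x y
  constructor
  · refine le_trans (csInf_le ⟨0, ?_⟩ ⟨γ, a, b, h1, fun t _ => h2 t, h3, h4, rfl⟩) h5
    rintro _ ⟨γ, a, b, -, -, -, -, rfl⟩
    exact intervalIntegral.integral_nonneg zero_le_one fun _ _ => norm_nonneg _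
  · have : (δ x y - 1) / 2 ≤ dCarnot x y := by
      refine le_csInf ⟨_, γ, a, b, h1, fun t _ => h2 t, h3, h4, rfl⟩ ?_
      rintro _ ⟨γ, a, b, h, hh, rfl, rfl, rfl⟩
      have h0 : ∫ t in (0 : ℝ)..1, ‖b t - (1 / 2 : ℝ) • B (γ t).h (a t)‖ ≤ 0 := by
        rw [intervalIntegral.integral_congr (g := fun _ => (0 : ℝ))]
        · simp
        · intro t ht
          rw [uIcc_of_le zero_le_one] at ht
          simp [hh t ht, cr_eq]
      have hl := lower h le_rfl h0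
      have hℓ0 : 0 ≤ ∫ t in (0 : ℝ)..1, ‖a t‖ :=
        intervalIntegral.integral_nonneg zero_le_one fun _ _ => norm_nonneg _
      rw [add_zero, Real.sqrt_mul_self hℓ0] at hl
      linarith
    linarith

lemma comp_riem : Comp dRiem := by
  intro x y
  obtain ⟨γ, a, b, h1, h2, h3, h4, h5⟩ := upper x y
  constructor
  · refine le_trans (csInf_le ⟨0, ?_⟩ ⟨γ, a, b, h1, h3, h4, rfl⟩) (le_trans (le_of_eq ?_) h5)
    · rintro _ ⟨γ, a, b, -, -, -, rfl⟩
      exact intervalIntegral.integral_nonneg zero_le_one fun _ _ => Real.sqrt_nonneg _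
    · congr 1
      ext t
      rw [h2 t]
      simp
  · have : (δ x y - 1) / 2 ≤ dRiem x y := by
      refine le_csInf ⟨_, γ, a, b, h1, h3, h4, rfl⟩ ?_
      rintro _ ⟨γ, a, b, h, rfl, rfl, rfl⟩
      have hpc : ContinuousOn (fun t => (γ t).h) (Icc 0 1) :=
        fun t ht => (h.1 t ht).1.continuousAt.continuousWithinAt
      have hc1 : ContinuousOn (fun t => b t - (1 / 2 : ℝ) • B (γ t).h (a t)) (Icc (0 : ℝ) 1) :=
        h.2.2.sub (((B.continuous.comp_continuousOn hpc).clm_apply h.2.1).const_smul (1 / 2 : ℝ))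
      have hsub : uIcc (0 : ℝ) 1 ⊆ Icc 0 1 := by rw [uIcc_of_le zero_le_one]
      have hi : IntervalIntegrable
          (fun t => √(‖a t‖ ^ 2 + ‖b t - (1 / 2 : ℝ) • cr (γ t).h (a t)‖ ^ 2))
          MeasureTheory.volume 0 1 :=
        ((((h.2.1.norm.pow 2).add (hc1.norm.pow 2)).sqrt).mono hsub).intervalIntegrable
      set ℓ := ∫ t in (0 : ℝ)..1, √(‖a t‖ ^ 2 + ‖b t - (1 / 2 : ℝ) • cr (γ t).h (a t)‖ ^ 2)
      have hℓ0 : 0 ≤ ℓ :=
        intervalIntegral.integral_nonneg zero_le_one fun _ _ => Real.sqrt_nonneg _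
      have e1 : ∫ t in (0 : ℝ)..1, ‖a t‖ ≤ ℓ :=
        intervalIntegral.integral_mono_on zero_le_one
          (h.2.1.norm.mono hsub).intervalIntegrable hi fun t _ =>
            Real.le_sqrt_of_sq_le (le_add_of_nonneg_right (sq_nonneg _))
      have e2 : ∫ t in (0 : ℝ)..1, ‖b t - (1 / 2 : ℝ) • B (γ t).h (a t)‖ ≤ ℓ :=
        intervalIntegral.integral_mono_on zero_le_one
          (hc1.norm.mono hsub).intervalIntegrable hi fun t _ =>
            Real.le_sqrt_of_sq_le (le_add_of_nonneg_left (sq_nonneg _))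
      have hl := lower h e1 e2
      have e3 : √(ℓ * ℓ + ℓ) ≤ ℓ + 1 := Real.sqrt_le_iff.2 ⟨by positivity, by nlinarith⟩
      linarith
    linarith

/-- the direction of the shear -/
noncomputable def e : V := !₂[0, 0, 1]

lemma norm_e : ‖e‖ = 1 := by
  have : ‖e‖ ^ 2 = 1 := by rw [normsq]; simp [e]
  have h0 := norm_nonneg e
  nlinarith

lemma abs_coord_le (a : V) : |a 2| ≤ ‖a‖ := by
  simpa using PiLp.norm_apply_le a 2

lemma B_coord (p q : V) : |(B p q) 2| ≤ ‖B e p‖ * ‖q‖ := by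
  have h : ((B p q) 2) ^ 2 ≤ (‖B e p‖ * ‖q‖) ^ 2 := by
    rw [mul_pow, normsq, normsq, ← cr_eq, ← cr_eq, cr_apply0, cr_apply1, cr_apply2, cr_apply2]
    simp only [e]
    simp
    nlinarith [sq_nonneg (p 0 * q 0 + p 1 * q 1), sq_nonneg (p 0 * q 2), sq_nonneg (p 1 * q 2)]
  exact abs_le_of_sq_le_sq' h (by positivity) |> abs_le.2

/-- the gauge, a function on the Heisenberg quotient -/
noncomputable def g (x : N) : ℝ := √(‖B e x.h‖ ^ 2 + |x.v 2|)

lemma g_nonneg (x : N) : 0 ≤ g x := Real.sqrt_nonneg _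

lemma le_g (x : N) : ‖B e x.h‖ ≤ g x :=
  Real.le_sqrt_of_sq_le (le_add_of_nonneg_right (abs_nonneg _))

lemma g_le (x y : N) : g y ≤ g x + 2 * δ x y := by
  set a := y.h - x.h with ha
  set ζ := y.v - x.v - (1 / 2 : ℝ) • B x.h y.h with hζ
  have e0 : δ x y = ‖a‖ + √‖ζ‖ := rfl
  have e1 : ‖B e y.h‖ ≤ ‖B e x.h‖ + ‖a‖ := by
    have : y.h = x.h + a := by rw [ha]; abel
    rw [this, map_add]
    refine (norm_add_le _ _).trans ?_
    have := norm_B_le e a
    rw [norm_e, one_mul] at this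
    linarith
  have e2 : |y.v 2| ≤ |x.v 2| + ‖ζ‖ + ‖B e x.h‖ * ‖a‖ := by
    have h1 : B x.h a = B x.h y.h := by rw [ha, map_sub, B_self, sub_zero]
    have : y.v = x.v + ζ + (1 / 2 : ℝ) • B x.h a := by rw [hζ, h1]; abel
    rw [this]
    simp only [PiLp.add_apply, PiLp.smul_apply, smul_eq_mul]
    refine (abs_add_three _ _ _).trans ?_
    have h2 := B_coord x.h a
    have h3 := abs_coord_le ζ
    rw [abs_mul, abs_of_pos (by norm_num : (0 : ℝ) < 1 / 2)]
    have h4 := abs_nonneg ((B x.h a) 2)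
    linarith
  have g0 := g_nonneg x
  have g1 : g x ^ 2 = ‖B e x.h‖ ^ 2 + |x.v 2| := Real.sq_sqrt (by positivity)
  have g2 := le_g x
  have s0 := Real.sqrt_nonneg ‖ζ‖
  have s1 : √‖ζ‖ ^ 2 = ‖ζ‖ := Real.sq_sqrt (norm_nonneg _)
  have a0 := norm_nonneg a
  have x0 := norm_nonneg (B e x.h)
  rw [e0]
  set s := √‖ζ‖
  refine Real.sqrt_le_iff.2 ⟨by positivity, ?_⟩
  have e3 : ‖B e y.h‖ ^ 2 ≤ (‖B e x.h‖ + ‖a‖) ^ 2 := pow_le_pow_left₀ (norm_nonneg _) e1 2
  have e4 : ‖B e x.h‖ * ‖a‖ ≤ g x * ‖a‖ := by gcongr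
  have e6 : 0 ≤ g x * ‖a‖ := by positivity
  have e7 : 0 ≤ g x * s := by positivity
  nlinarith [mul_nonneg a0 s0, sq_nonneg ‖a‖, sq_nonneg s]

/-- the slowly varying amount of the shear -/
noncomputable def φ (x : N) : ℝ := Real.log (1 + g x)

/-- left multiplication by a slowly varying element of a one-parameter subgroup -/
noncomputable def F (σ : ℝ) (x : N) : N := (⟨(σ * φ x) • e, 0⟩ : N) * x

lemma g_shift (t : ℝ) (x : N) : g ((⟨t • e, 0⟩ : N) * x) = g x := by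
  have h1 : (B e x.h) 2 = 0 := by
    rw [← cr_eq, cr_apply2]
    simp [e]
  simp [g, B_self, h1]

lemma φ_F (σ : ℝ) (x : N) : φ (F σ x) = φ x := by
  simp only [φ, F, g_shift]

lemma F_F (σ : ℝ) (x : N) : F (-σ) (F σ x) = x := by
  rw [F, φ_F, F]
  refine N.ext ?_ ?_
  · simp
  · simp [B_self]

lemma sqrt_add_le' (a b : ℝ) (ha : 0 ≤ a) (hb : 0 ≤ b) : √(a + b) ≤ √a + √b := by
  refine Real.sqrt_le_iff.2 ⟨by positivity, ?_⟩
  have h1 := Real.sq_sqrt ha
  have h2 := Real.sq_sqrt hb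
  nlinarith [mul_nonneg (Real.sqrt_nonneg a) (Real.sqrt_nonneg b)]

lemma δ_F_aux {σ : ℝ} (hσ : |σ| = 1) (x y : N) (hxy : g x ≤ g y) :
    δ (F σ x) (F σ y) ≤ 6 * δ x y + 1 := by
  set a := y.h - x.h with ha
  set ζ := y.v - x.v - (1 / 2 : ℝ) • B x.h y.h with hζ
  set t := φ y - φ x with ht
  have e0 : δ x y = ‖a‖ + √‖ζ‖ := rfl
  have hy : y.h = x.h + a := by rw [ha]; abel
  have e1 : δ (F σ x) (F σ y) = ‖a + (σ * t) • e‖ +
      √‖ζ + ((σ * t) • B e x.h + ((1 / 2 : ℝ) * (σ * t)) • B e a)‖ := by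
    simp only [δ, F, mul_h, mul_v]
    congr 1
    · congr 1
      rw [ha, ht]
      module
    · congr 2
      rw [hζ, ht, hy]
      simp only [map_add, map_smul, add_apply,
        smul_apply, B_self, B_anti e x.h]
      module
  have g0 := g_nonneg x
  have d0 := δ_nonneg x y
  have t0 : 0 ≤ t := sub_nonneg.2 (Real.log_le_log (by linarith) (by linarith))
  have t1 : t * (1 + g x) ≤ 2 * δ x y := by
    have h1 : t = Real.log ((1 + g y) / (1 + g x)) := by
      rw [Real.log_div (by linarith) (by linarith)]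
      rfl
    have h2 := Real.log_le_sub_one_of_pos (x := (1 + g y) / (1 + g x))
      (div_pos (by linarith) (by linarith))
    have h3 : ((1 + g y) / (1 + g x) - 1) * (1 + g x) = g y - g x := by
      field_simp
      ring
    have h4 := g_le x y
    have h5 : t * (1 + g x) ≤ ((1 + g y) / (1 + g x) - 1) * (1 + g x) :=
      mul_le_mul_of_nonneg_right (h1 ▸ h2) (by linarith)
    linarith
  have t2 : t ≤ 2 * δ x y := by nlinarith
  have t3 : t * ‖B e x.h‖ ≤ 2 * δ x y := by nlinarith [le_g x]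
  have st : |σ * t| = t := by rw [abs_mul, hσ, one_mul, abs_of_nonneg t0]
  have a0 := norm_nonneg a
  have s0 := Real.sqrt_nonneg ‖ζ‖
  have a1 : ‖a‖ ≤ δ x y := by linarith
  have b1 : ‖a + (σ * t) • e‖ ≤ ‖a‖ + 2 * δ x y := by
    refine (norm_add_le _ _).trans ?_
    rw [norm_smul, norm_e, Real.norm_eq_abs, st]
    linarith
  have b2 : ‖(σ * t) • B e x.h + ((1 / 2 : ℝ) * (σ * t)) • B e a‖ ≤ (δ x y + 1) ^ 2 := by
    refine (norm_add_le _ _).trans ?_
    rw [norm_smul, norm_smul, Real.norm_eq_abs, Real.norm_eq_abs, st, abs_mul, st,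
      abs_of_pos (by norm_num : (0 : ℝ) < 1 / 2)]
    have h1 := norm_B_le e a
    rw [norm_e, one_mul] at h1
    have h2 : t * ‖B e a‖ ≤ (2 * δ x y) * δ x y :=
      mul_le_mul t2 (h1.trans a1) (norm_nonneg _) (by linarith)
    nlinarith
  set w := (σ * t) • B e x.h + ((1 / 2 : ℝ) * (σ * t)) • B e a
  have b3 : √‖w‖ ≤ δ x y + 1 := Real.sqrt_le_iff.2 ⟨by positivity, b2⟩
  have b4 : √‖ζ + w‖ ≤ √‖ζ‖ + √‖w‖ :=
    (Real.sqrt_le_sqrt (norm_add_le _ _)).trans (sqrt_add_le' _ _ (norm_nonneg _) (norm_nonneg _))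
  linarith

lemma δ_F {σ : ℝ} (hσ : |σ| = 1) (x y : N) : δ (F σ x) (F σ y) ≤ 6 * δ x y + 1 := by
  rcases le_total (g x) (g y) with h | h
  · exact δ_F_aux hσ x y h
  · rw [δ_symm, δ_symm x y]
    exact δ_F_aux hσ y x h

theorem F_qi {d : N → N → ℝ} (hd : Comp d) : IsQuasiIsometry d (F 1) := by
  refine ⟨12000, 7000, by norm_num, by norm_num, fun x y => ?_, fun y => ⟨F (-1) y, ?_⟩⟩
  · have h1 := δ_F (σ := 1) (by norm_num) x y
    have h2 := δ_F (σ := -1) (by norm_num) (F 1 x) (F 1 y)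
    rw [F_F, F_F] at h2
    obtain ⟨a1, a2⟩ := hd x y
    obtain ⟨a3, a4⟩ := hd (F 1 x) (F 1 y)
    constructor
    · rw [sub_le_iff_le_add, inv_mul_le_iff₀ (by norm_num)]
      have := δ_nonneg x y
      linarith
    · linarith
  · have h := F_F (-1) y
    rw [neg_neg] at h
    rw [h]
    have := (hd y y).1
    rw [δ_self] at this
    linarith

lemma comm_h (x y : N) : (⁅x, y⁆ : N).h = 0 := by
  simp [commutatorElement_def]

lemma comm_v (x y : N) : (⁅x, y⁆ : N).v = B x.h y.h := by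
  simp only [commutatorElement_def, mul_h, mul_v, inv_h, inv_v, map_add, map_neg,
    add_apply, neg_apply, B_self, B_anti x.h y.h]
  module

lemma mem_lcs (x : N) : x ∈ (⊤ : Subgroup N).lowerCentralSeries 1 ↔ x.h = 0 := by
  rw [Subgroup.top_lowerCentralSeries_one]
  constructor
  · intro hx
    rw [commutator_eq_closure] at hx
    induction hx using Subgroup.closure_induction with
    | mem x hx =>
      obtain ⟨p, q, rfl⟩ := hx
      exact comm_h p q
    | one => rfl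
    | mul x y _ _ hx hy => simp [hx, hy]
    | inv x _ hx => simp [hx]
  · intro hx
    obtain ⟨u, v, huv, -, -⟩ := B_surj x.v
    have : x = ⁅(⟨u, 0⟩ : N), (⟨v, 0⟩ : N)⁆ := by
      refine N.ext ?_ ?_
      · rw [hx, comm_h]
      · rw [comm_v, huv]
    rw [this, commutator_def]
    exact Subgroup.commutator_mem_commutator (Subgroup.mem_top _) (Subgroup.mem_top _)

theorem F_not {d : N → N → ℝ} (hd : Comp d) :
    ¬ CoarselyPermutes d (F 1) ((⊤ : Subgroup N).lowerCentralSeries 1) := by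
  rintro ⟨D, hD⟩
  obtain ⟨k, hk, -⟩ := hD 1
  set M := 2 * D + 1 + ‖k.h‖ + 1 with hM
  set s := Real.exp M with hs
  have s0 : 0 < s := Real.exp_pos _
  obtain ⟨w, hw, hdw⟩ := hk ⟨0, (s * s) • e⟩ ((mem_lcs _).2 rfl)
  rw [mem_lcs] at hw
  rw [one_mul] at hdw
  have h1 := (hd (F 1 ⟨0, (s * s) • e⟩) (k * w)).2
  have h2 : g ⟨0, (s * s) • e⟩ = s := by
    simp [g, e, Real.sqrt_mul_self s0.le]
  have h3 : M ≤ φ ⟨0, (s * s) • e⟩ := by
    rw [φ, h2, Real.le_log_iff_exp_le (by linarith)]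
    linarith
  have h4 : ‖(k * w).h - (F 1 ⟨0, (s * s) • e⟩).h‖ ≤ δ (F 1 ⟨0, (s * s) • e⟩) (k * w) :=
    le_add_of_nonneg_right (Real.sqrt_nonneg _)
  have h5 : (k * w).h - (F 1 ⟨0, (s * s) • e⟩).h = k.h - (φ ⟨0, (s * s) • e⟩) • e := by
    simp [F, hw]
  rw [h5] at h4
  have h6 := norm_sub_norm_le ((φ ⟨0, (s * s) • e⟩) • e) k.h
  rw [norm_sub_rev, norm_smul, norm_e, mul_one, Real.norm_eq_abs] at h6
  have h7 := le_abs_self (φ ⟨0, (s * s) • e⟩)
  linarith

lemma commute_iff (x y : N) : x * y = y * x ↔ B x.h y.h = 0 := by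
  rw [← commutatorElement_eq_one_iff_mul_comm]
  constructor
  · intro h
    rw [← comm_v, h, one_v]
  · intro h
    exact N.ext (comm_h x y) (by rw [comm_v, h, one_v])

/-- if `c` commutes with `a` then `c` is orthogonal to `a × b` or `a × b = 0` -/
lemma perp_of_comm {a b c : V} (h : B c a = 0) :
    c 0 * (B a b) 0 + c 1 * (B a b) 1 + c 2 * (B a b) 2 = 0 := by
  have h0 := congrArg (fun v : V => v 0) h
  have h1 := congrArg (fun v : V => v 1) h
  have h2 := congrArg (fun v : V => v 2) h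
  simp only [← cr_eq, cr_apply0, cr_apply1, cr_apply2, PiLp.zero_apply] at h0 h1 h2 ⊢
  linear_combination b 0 * h0 + b 1 * h1 + b 2 * h2

theorem no_heis (n : ℕ) (hn : 1 ≤ n) (G : Type) [Group G] : IsEmpty (N ≃* Heis n × G) := by
  refine ⟨fun ψ => ?_⟩
  let i : Fin n := ⟨0, hn⟩
  let X : ℝ → Heis n := fun t => ⟨Pi.single i t, 0, 0⟩
  let Y : Heis n := ⟨0, Pi.single i 1, 0⟩
  have mx : ∀ p q : Heis n, (p * q).x = p.x + q.x := fun _ _ => rfl
  have my : ∀ p q : Heis n, (p * q).y = p.y + q.y := fun _ _ => rfl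
  have mz : ∀ p q : Heis n,
      (p * q).z = p.z + q.z + (1 / 2 : ℝ) * (p.x ⬝ᵥ q.y - p.y ⬝ᵥ q.x) := fun _ _ => rfl
  set a := ψ.symm (X 1, 1) with ha
  set b := ψ.symm (Y, 1) with hb
  have hab : B a.h b.h ≠ 0 := by
    rw [Ne, ← commute_iff, ha, hb, ← map_mul, ← map_mul, ψ.symm.apply_eq_iff_eq]
    intro h
    have := congrArg (fun p : Heis n × G => p.1.z) h
    simp [mz, X, Y] at this
    linarith
  set u : N := ⟨B a.h b.h, 0⟩ with hu
  set p := (ψ u).1 with hp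
  set c := ψ.symm (X (p.x i), 1) with hc
  set c' := ψ.symm ((X (p.x i))⁻¹ * p, (ψ u).2) with hc'
  have h1 : c * c' = u := by
    rw [hc, hc', ← map_mul, ψ.symm_apply_eq]
    simp [hp]
  have h2 : B c.h a.h = 0 := by
    rw [← commute_iff, ha, hc, ← map_mul, ← map_mul, ψ.symm.apply_eq_iff_eq]
    refine Prod.ext (Heis.ext ?_ ?_ ?_) rfl <;> simp [mx, my, mz, X, add_comm]
  have h3 : B c'.h b.h = 0 := by
    rw [← commute_iff, hb, hc', ← map_mul, ← map_mul, ψ.symm.apply_eq_iff_eq]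
    have ix : ((X (p.x i))⁻¹).x = -Pi.single i (p.x i) := rfl
    refine Prod.ext (Heis.ext ?_ ?_ ?_) (by simp)
    · simp [mx, Y]
    · simp [my, Y, add_comm]
    · simp [mx, mz, Y, ix]
  have h4 := perp_of_comm (b := b.h) h2
  have h5 := perp_of_comm (b := a.h) h3
  rw [B_anti a.h b.h] at h5
  have h6 : c.h + c'.h = B a.h b.h := congrArg N.h h1
  apply hab
  rw [← norm_eq_zero, ← sq_eq_zero_iff, normsq]
  have h7 := congrArg (fun v : V => v 0) h6
  have h8 := congrArg (fun v : V => v 1) h6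
  have h9 := congrArg (fun v : V => v 2) h6
  simp only [PiLp.add_apply, PiLp.neg_apply] at h5 h7 h8 h9
  linear_combination h4 - h5 - (B a.h b.h) 0 * h7 - (B a.h b.h) 1 * h8 - (B a.h b.h) 2 * h9

lemma comm_of_comm {a b c : V} (ha : a ≠ 0) (hb : B a b = 0) (hc : B a c = 0) : B b c = 0 := by
  have h0 := congrArg (fun v : V => v 0) hb
  have h1 := congrArg (fun v : V => v 1) hb
  have h2 := congrArg (fun v : V => v 2) hb
  have k0 := congrArg (fun v : V => v 0) hc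
  have k1 := congrArg (fun v : V => v 1) hc
  have k2 := congrArg (fun v : V => v 2) hc
  simp only [← cr_eq, cr_apply0, cr_apply1, cr_apply2, PiLp.zero_apply] at h0 h1 h2 k0 k1 k2
  have hn : a 0 ^ 2 + a 1 ^ 2 + a 2 ^ 2 ≠ 0 := by
    rw [← normsq]
    exact pow_ne_zero 2 (norm_ne_zero_iff.2 ha)
  rw [← cr_eq]
  refine V_ext ?_ ?_ ?_ <;> simp only [cr_apply0, cr_apply1, cr_apply2, PiLp.zero_apply] <;>
    apply mul_left_cancel₀ hn
  · linear_combination (a 0 * c 0 + a 1 * c 1 + a 2 * c 2) * (-h0) +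
      (a 0 * b 0 + a 1 * b 1 + a 2 * b 2) * k0 +
      a 0 * (c 0 * h0 + c 1 * h1 + c 2 * h2)
  · linear_combination (a 0 * c 0 + a 1 * c 1 + a 2 * c 2) * (-h1) +
      (a 0 * b 0 + a 1 * b 1 + a 2 * b 2) * k1 +
      a 1 * (c 0 * h0 + c 1 * h1 + c 2 * h2)
  · linear_combination (a 0 * c 0 + a 1 * c 1 + a 2 * c 2) * (-h2) +
      (a 0 * b 0 + a 1 * b 1 + a 2 * b 2) * k2 +
      a 2 * (c 0 * h0 + c 1 * h1 + c 2 * h2)

/-- no nontrivial abelian direct factor -/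
lemma abelian_factor {A G : Type} [Group A] [Group G] (ψ : N ≃* A × G)
    (hA : ∀ p q : A, p * q = q * p) : Subsingleton A := by
  refine ⟨fun p q => ?_⟩
  suffices h : ∀ p : A, p = 1 by rw [h p, h q]
  intro p
  set a := ψ.symm (p, 1) with ha
  have h1 : a.h = 0 := by
    by_contra hne
    have hc : ∀ y : N, B a.h y.h = 0 := by
      intro y
      rw [← commute_iff]
      apply ψ.injective
      simp only [map_mul, ha, MulEquiv.apply_symm_apply]
      exact Prod.ext (hA _ _) (by simp)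
    have h2 : B (!₂[1, 0, 0] : V) (!₂[0, 1, 0] : V) = 0 :=
      comm_of_comm hne (hc ⟨_, 0⟩) (hc ⟨_, 0⟩)
    have h3 := congrArg (fun v : V => v 2) h2
    simp [← cr_eq, cr_apply2] at h3
  obtain ⟨u, v, huv, -, -⟩ := B_surj a.v
  have h2 : a = ⁅(⟨u, 0⟩ : N), (⟨v, 0⟩ : N)⁆ := by
    refine N.ext ?_ ?_
    · rw [h1, comm_h]
    · rw [comm_v, huv]
  have h3 : (p, (1 : G)) = ⁅ψ ⟨u, 0⟩, ψ ⟨v, 0⟩⁆ := by
    rw [← map_commutatorElement, ← h2, ha, MulEquiv.apply_symm_apply]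
  have h4 := congrArg Prod.fst h3
  simp only [commutatorElement_def, Prod.fst_mul, Prod.fst_inv] at h4
  rw [h4, hA (ψ ⟨u, 0⟩).1]
  simp

theorem indecomposable (A G : Type) [Group A] [Group G] (ψ : N ≃* A × G) :
    Subsingleton A ∨ Subsingleton G := by
  by_cases hA : ∀ p q : A, p * q = q * p
  · exact Or.inl (abelian_factor ψ hA)
  right
  refine abelian_factor (ψ.trans MulEquiv.prodComm) fun r s => ?_
  push Not at hA
  obtain ⟨p, q, hpq⟩ := hA
  have h1 : (ψ.symm (p, 1)).h ≠ 0 := by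
    intro h
    apply hpq
    have h2 : ψ.symm (p, 1) * ψ.symm (q, 1) = ψ.symm (q, 1) * ψ.symm (p, 1) := by
      rw [commute_iff, h]
      simp
    rw [← map_mul, ← map_mul, ψ.symm.apply_eq_iff_eq] at h2
    exact congrArg Prod.fst h2
  have h2 : ∀ r : G, B (ψ.symm (p, 1)).h (ψ.symm (1, r)).h = 0 := by
    intro r
    rw [← commute_iff, ← map_mul, ← map_mul]
    simp
  have h3 := comm_of_comm h1 (h2 r) (h2 s)
  rw [← commute_iff, ← map_mul, ← map_mul, ψ.symm.apply_eq_iff_eq] at h3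
  exact congrArg Prod.snd h3

end Pool.Agent.H465Z.QI
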